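import Pool.Agent.L7h70.GC.Bas

/-! Lower bound of the smooth count at the wide scale. -/

set_option autoImplicit false

namespace Pool.Agent.L7h70.GC

open Finset Filter

theorem s_SWAP : S_SWAP := by
  intro ι _ _ i₀ X F
  rw [← Finset.sum_product', ← nsmul_eq_mul, ← Finset.sum_const, ← Finset.sum_product_right']
  refine Finset.sum_nbij' (fun p => (Function.update p.1 i₀ p.2, p.1 i₀))
    (fun p => (Function.update p.1 i₀ p.2, p.1 i₀)) ?_ ?_ ?_ ?_ ?_
  · rintro ⟨x, z⟩ h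
    simp only [mem_product, Fintype.mem_piFinset] at h ⊢
    refine ⟨fun i => ?_, h.1 i₀⟩
    by_cases hi : i = i₀
    · subst hi; simpa using h.2
    · simpa [Function.update_of_ne hi] using h.1 i
  · rintro ⟨x, z⟩ h
    simp only [mem_product, Fintype.mem_piFinset] at h ⊢
    refine ⟨fun i => ?_, h.1 i₀⟩
    by_cases hi : i = i₀
    · subst hi; simpa using h.2
    · simpa [Function.update_of_ne hi] using h.1 i
  · rintro ⟨x, z⟩ _
    simp
  · rintro ⟨x, z⟩ _
    simp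
  · rintro ⟨x, z⟩ _
    simp

lemma rpow_sub_le {c v z : ℝ} (hc : 1 ≤ c) (hv : 0 < v) (hvz : v ≤ z) :
    z ^ c - v ^ c ≤ c * z ^ (c - 1) * (z - v) := by
  have hz : 0 < z := lt_of_lt_of_le hv hvz
  have h1 := one_add_mul_self_le_rpow_one_add (s := v / z - 1) (p := c) (by
    have : 0 < v / z := by positivity
    linarith) hc
  have h2 : (1 + (v / z - 1)) ^ c = v ^ c / z ^ c := by
    rw [show 1 + (v / z - 1) = v / z by ring, Real.div_rpow hv.le hz.le]
  rw [h2] at h1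
  have hzc : 0 < z ^ c := by positivity
  have h3 : (1 + c * (v / z - 1)) * z ^ c ≤ v ^ c := by
    rw [le_div_iff₀ hzc] at h1; exact h1
  have h4 : z ^ c = z ^ (c - 1) * z := by
    rw [← Real.rpow_add_one hz.ne']; congr 1; ring
  have h5 : (1 + c * (v / z - 1)) * z ^ c = z ^ c - c * z ^ (c - 1) * (z - v) := by
    rw [h4]; field_simp; ring
  linarith

theorem s_COARSE : S_COARSE := by
  intro ι _ _ i₀ a A c hD κ hκ hκc
  have hpi := Real.pi_pos
  obtain ⟨ha, hA, hc, hdom⟩ := hD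
  have ha0 := ha i₀
  have hc0 := hc i₀
  have hc0p : 0 < c i₀ := by linarith
  have hA0 : 0 < A i₀ := by linarith [hA i₀]
  set Q : ℝ := a i₀ * c i₀ * (4 * A i₀) ^ c i₀ with hQ
  have hQp : 0 < Q := by rw [hQ]; positivity
  refine ⟨Real.exp (-Real.pi) / (8 * Q), by positivity, ?_⟩
  have t1 := tend2.eventually (large (-κ) 0 (1 / Q) (by linarith))
  have t2 := tend2.eventually (large 0 (1 / c i₀ - κ) (2 * Q / A i₀) (by linarith))
  filter_upwards [t1, t2] with l g1 g2 τ hτ1 hτ2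
  set H : ℝ := (2 : ℝ) ^ l with hH
  have hH1 : 1 ≤ H := one_le_pow₀ (by norm_num)
  have hH0 : 0 < H := by linarith
  rw [Real.rpow_zero] at g1 g2
  set R0 : ℝ := H ^ (-1 + κ) with hR0
  have hR0p : 0 < R0 := by positivity
  set n0 : ℝ := nn A c l i₀ with hn0
  have hn0' : n0 = A i₀ * H ^ (1 / c i₀) := rfl
  have hn1 : 1 ≤ n0 := nn_ge (hA i₀) hc0
  have hn0p : 0 < n0 := by linarith
  have hn0c : n0 ^ c i₀ = A i₀ ^ c i₀ * H := by
    rw [hn0', Real.mul_rpow hA0.le (by positivity), ← Real.rpow_mul hH0.le]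
    congr 1
    rw [one_div, inv_mul_cancel₀ hc0p.ne', Real.rpow_one]
  set W : ℝ := H ^ (1 - κ) with hW
  have hWp : 0 < W := by positivity
  have hRW : R0 * W = 1 := by
    rw [hR0, hW, ← Real.rpow_add hH0]; norm_num
  set h : ℝ := W * n0 / (Q * H) with hh
  have hhp : 0 < h := by positivity
  have hh1 : h ≤ n0 := by
    have e : h = (1 / Q * H ^ (-κ)) * n0 := by
      rw [hh, hW, Real.rpow_sub hH0, Real.rpow_one, Real.rpow_neg hH0.le]; field_simp
    rw [e]
    calc (1 / Q * H ^ (-κ)) * n0 ≤ 1 * n0 := by gcongr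
      _ = n0 := one_mul _
  have hh2 : 2 ≤ h := by
    have e : h = A i₀ / Q * H ^ (1 / c i₀ - κ) := by
      rw [hh, hW, hn0', Real.rpow_sub hH0, Real.rpow_one, Real.rpow_sub hH0]; field_simp
    rw [e]
    calc (2 : ℝ) = A i₀ / Q * (2 * Q / A i₀ * 1) := by field_simp
      _ ≤ A i₀ / Q * H ^ (1 / c i₀ - κ) := by gcongr
  -- one fixed tuple of the other variables
  have hrow : ∀ x ∈ BX A c l, h / 2 * (R0 * Real.exp (-Real.pi)) ≤
      ∑ z ∈ XX n0, R0 * Real.exp (-(Real.pi * R0 ^ 2 * (GG a c (Function.update x i₀ z) - τ) ^ 2)) := by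
    intro x hx
    set o : ℝ := ∑ i ∈ univ.erase i₀, a i * (x i : ℝ) ^ c i with ho
    have hG : ∀ z : ℕ, GG a c (Function.update x i₀ z) = a i₀ * (z : ℝ) ^ c i₀ + o := by
      intro z
      unfold GG
      rw [← Finset.add_sum_erase univ _ (mem_univ i₀), ho]
      congr 1
      · simp
      · refine Finset.sum_congr rfl fun i hi => ?_
        rw [Function.update_of_ne (Finset.ne_of_mem_erase hi)]
    have ho0 : 0 ≤ o := Finset.sum_nonneg fun i _ => mul_nonneg (ha i).le (by positivity)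
    have ho1 : o ≤ a i₀ * A i₀ ^ c i₀ * ((3 / 2 : ℝ) ^ c i₀ - (5 / 4 : ℝ) ^ c i₀) * H := by
      calc o ≤ ∑ i ∈ univ.erase i₀, a i * (4 * A i) ^ c i * H := by
            refine Finset.sum_le_sum fun i _ => ?_
            have hxi := (mem_XX (by linarith [nn_ge (l := l) (hA i) (hc i)])).1
              ((Fintype.mem_piFinset.1 hx) i)
            have hAi : 0 < A i := by linarith [hA i]
            have hci : 0 < c i := by linarith [hc i]
            have h1 : (x i : ℝ) ^ c i ≤ (4 * A i) ^ c i * H := by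
              calc (x i : ℝ) ^ c i ≤ (4 * nn A c l i) ^ c i :=
                    Real.rpow_le_rpow (by positivity) hxi.2 hci.le
                _ = (4 * A i * H ^ (1 / c i)) ^ c i := by
                    unfold nn; rw [mul_assoc]
                _ = (4 * A i) ^ c i * H := by
                    rw [Real.mul_rpow (by positivity) (by positivity), ← Real.rpow_mul hH0.le]
                    congr 1
                    rw [one_div, inv_mul_cancel₀ hci.ne', Real.rpow_one]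
            calc a i * (x i : ℝ) ^ c i ≤ a i * ((4 * A i) ^ c i * H) := by
                  have := ha i; gcongr
              _ = _ := by ring
        _ = (∑ i ∈ univ.erase i₀, a i * (4 * A i) ^ c i) * H := by rw [Finset.sum_mul]
        _ ≤ _ := by gcongr
    set t : ℝ := τ - o with ht
    have ht1 : a i₀ * A i₀ ^ c i₀ * (5 / 4 : ℝ) ^ c i₀ * H ≤ t := by
      have : a i₀ * A i₀ ^ c i₀ * (5 / 4 : ℝ) ^ c i₀ * H = a i₀ * A i₀ ^ c i₀ * (3 / 2 : ℝ) ^ c i₀ * H -
        a i₀ * A i₀ ^ c i₀ * ((3 / 2 : ℝ) ^ c i₀ - (5 / 4 : ℝ) ^ c i₀) * H := by ring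
      rw [this]; linarith
    have ht2 : t ≤ a i₀ * A i₀ ^ c i₀ * (3 : ℝ) ^ c i₀ * H := by linarith
    have ht0 : 0 < t := lt_of_lt_of_le (by positivity) ht1
    set v : ℝ := (t / a i₀) ^ (1 / c i₀) with hv
    have hvp : 0 < v := by positivity
    have hvc : v ^ c i₀ = t / a i₀ := by
      rw [hv, ← Real.rpow_mul (by positivity), one_div, inv_mul_cancel₀ hc0p.ne', Real.rpow_one]
    have hv1 : 5 / 4 * n0 ≤ v := by
      by_contra hcon
      push Not at hcon
      have h1 : v ^ c i₀ < (5 / 4 * n0) ^ c i₀ := Real.rpow_lt_rpow hvp.le hcon hc0p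
      rw [hvc, Real.mul_rpow (by norm_num) hn0p.le, hn0c, div_lt_iff₀ ha0] at h1
      nlinarith
    have hv2 : v ≤ 3 * n0 := by
      by_contra hcon
      push Not at hcon
      have h1 : (3 * n0) ^ c i₀ < v ^ c i₀ := Real.rpow_lt_rpow (by positivity) hcon hc0p
      rw [hvc, Real.mul_rpow (by norm_num) hn0p.le, hn0c, lt_div_iff₀ ha0] at h1
      nlinarith
    have hsub : Ioc ⌊v⌋₊ ⌊v + h⌋₊ ⊆ XX n0 := by
      intro z hz
      rw [mem_Ioc, Nat.floor_lt hvp.le, Nat.le_floor_iff (by positivity)] at hz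
      rw [mem_XX hn0p.le]
      constructor
      · linarith [hz.1]
      · linarith [hz.2]
    have hcard : h / 2 ≤ ((Ioc ⌊v⌋₊ ⌊v + h⌋₊).card : ℝ) := by
      rw [Nat.card_Ioc, Nat.cast_sub (Nat.floor_le_floor (by linarith))]
      have h1 := Nat.floor_le hvp.le
      have h2 := Nat.lt_floor_add_one (v + h)
      linarith
    have hterm : ∀ z ∈ Ioc ⌊v⌋₊ ⌊v + h⌋₊, R0 * Real.exp (-Real.pi) ≤
        R0 * Real.exp (-(Real.pi * R0 ^ 2 * (GG a c (Function.update x i₀ z) - τ) ^ 2)) := by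
      intro z hz
      rw [mem_Ioc, Nat.floor_lt hvp.le, Nat.le_floor_iff (by positivity)] at hz
      have hz4 : (z : ℝ) ≤ 4 * n0 := by linarith [hz.2]
      have hzp : (0 : ℝ) < z := lt_trans hvp hz.1
      rw [hG z]
      have e1 : a i₀ * (z : ℝ) ^ c i₀ + o - τ = a i₀ * ((z : ℝ) ^ c i₀ - v ^ c i₀) := by
        rw [hvc, ht]; field_simp; ring
      rw [e1]
      have h1 := rpow_sub_le hc0 hvp hz.1.le
      have h2 : (0 : ℝ) ≤ (z : ℝ) ^ c i₀ - v ^ c i₀ := by
        rw [sub_nonneg]; exact Real.rpow_le_rpow hvp.le hz.1.le hc0p.le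
      have h3 : a i₀ * ((z : ℝ) ^ c i₀ - v ^ c i₀) ≤ W := by
        calc a i₀ * ((z : ℝ) ^ c i₀ - v ^ c i₀) ≤ a i₀ * (c i₀ * (z : ℝ) ^ (c i₀ - 1) * (z - v)) := by gcongr
          _ ≤ a i₀ * (c i₀ * (4 * n0) ^ (c i₀ - 1) * h) := by
              have h4 : (z : ℝ) - v ≤ h := by linarith [hz.2]
              have h5 : (0 : ℝ) ≤ (z : ℝ) - v := by linarith [hz.1]
              have h6 : (z : ℝ) ^ (c i₀ - 1) ≤ (4 * n0) ^ (c i₀ - 1) :=
                Real.rpow_le_rpow hzp.le hz4 (by linarith)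
              gcongr
          _ = a i₀ * c i₀ * (4 * n0) ^ c i₀ / (4 * n0) * h := by
              rw [Real.rpow_sub (by positivity), Real.rpow_one]; ring
          _ = W / 4 := by
              rw [Real.mul_rpow (by norm_num) hn0p.le, hn0c, hh, hQ,
                Real.mul_rpow (by norm_num) hA0.le]
              field_simp
          _ ≤ W := by linarith
      have h4 : (a i₀ * ((z : ℝ) ^ c i₀ - v ^ c i₀)) ^ 2 ≤ W ^ 2 :=
        pow_le_pow_left₀ (by positivity) h3 2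
      have h5 : Real.pi * R0 ^ 2 * (a i₀ * ((z : ℝ) ^ c i₀ - v ^ c i₀)) ^ 2 ≤ Real.pi := by
        calc Real.pi * R0 ^ 2 * (a i₀ * ((z : ℝ) ^ c i₀ - v ^ c i₀)) ^ 2 ≤ Real.pi * R0 ^ 2 * W ^ 2 := by gcongr
          _ = Real.pi * (R0 * W) ^ 2 := by ring
          _ = Real.pi := by rw [hRW]; ring
      have h6 : Real.exp (-Real.pi) ≤
          Real.exp (-(Real.pi * R0 ^ 2 * (a i₀ * ((z : ℝ) ^ c i₀ - v ^ c i₀)) ^ 2)) :=
        Real.exp_le_exp.2 (by linarith)
      gcongr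
    calc h / 2 * (R0 * Real.exp (-Real.pi)) ≤
        ((Ioc ⌊v⌋₊ ⌊v + h⌋₊).card : ℝ) * (R0 * Real.exp (-Real.pi)) := by gcongr
      _ = ∑ _z ∈ Ioc ⌊v⌋₊ ⌊v + h⌋₊, R0 * Real.exp (-Real.pi) := by simp
      _ ≤ ∑ z ∈ Ioc ⌊v⌋₊ ⌊v + h⌋₊,
          R0 * Real.exp (-(Real.pi * R0 ^ 2 * (GG a c (Function.update x i₀ z) - τ) ^ 2)) :=
          Finset.sum_le_sum hterm
      _ ≤ _ := Finset.sum_le_sum_of_subset_of_nonneg hsub fun z _ _ => by positivity
  have hsw := s_SWAP ι i₀ (fun i => XX (nn A c l i))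
    (fun x => R0 * Real.exp (-(Real.pi * R0 ^ 2 * (GG a c x - τ) ^ 2)))
  have hsum : ((BX A c l).card : ℝ) * (h / 2 * (R0 * Real.exp (-Real.pi))) ≤
      ((XX n0).card : ℝ) * ∑ x ∈ BX A c l, R0 * Real.exp (-(Real.pi * R0 ^ 2 * (GG a c x - τ) ^ 2)) := by
    calc ((BX A c l).card : ℝ) * (h / 2 * (R0 * Real.exp (-Real.pi))) =
        ∑ _x ∈ BX A c l, h / 2 * (R0 * Real.exp (-Real.pi)) := by simp
      _ ≤ _ := Finset.sum_le_sum hrow
      _ = _ := hsw
  set S : ℝ := ∑ x ∈ BX A c l, R0 * Real.exp (-(Real.pi * R0 ^ 2 * (GG a c x - τ) ^ 2)) with hS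
  have hS0 : 0 ≤ S := Finset.sum_nonneg fun x _ => by positivity
  have hBX : ∏ i, nn A c l i ≤ ((BX A c l).card : ℝ) := by
    unfold BX
    rw [Fintype.card_piFinset]
    push_cast
    exact Finset.prod_le_prod (fun i _ => by linarith [nn_ge (l := l) (hA i) (hc i)])
      (fun i _ => le_card_XX (nn_ge (hA i) (hc i)))
  have hP0 : 0 ≤ ∏ i, nn A c l i :=
    Finset.prod_nonneg fun i _ => by linarith [nn_ge (l := l) (hA i) (hc i)]
  have h1 : (∏ i, nn A c l i) * (h / 2 * (R0 * Real.exp (-Real.pi))) ≤ 4 * n0 * S := by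
    calc (∏ i, nn A c l i) * (h / 2 * (R0 * Real.exp (-Real.pi))) ≤
        ((BX A c l).card : ℝ) * (h / 2 * (R0 * Real.exp (-Real.pi))) := by gcongr
      _ ≤ ((XX n0).card : ℝ) * S := hsum
      _ ≤ 4 * n0 * S := by
          have := card_XX_le hn0p.le
          gcongr
  have h2 : (∏ i, nn A c l i) * (h / 2 * (R0 * Real.exp (-Real.pi))) =
      4 * n0 * (Real.exp (-Real.pi) / (8 * Q) * (∏ i, nn A c l i) / H) := by
    have : h * R0 = n0 / (Q * H) := by
      rw [hh]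
      calc W * n0 / (Q * H) * R0 = (R0 * W) * (n0 / (Q * H)) := by ring
        _ = _ := by rw [hRW, one_mul]
    calc (∏ i, nn A c l i) * (h / 2 * (R0 * Real.exp (-Real.pi))) =
        (∏ i, nn A c l i) * Real.exp (-Real.pi) / 2 * (h * R0) := by ring
      _ = _ := by rw [this]; field_simp; ring
  rw [h2] at h1
  exact le_of_mul_le_mul_left h1 (by positivity)

end Pool.Agent.L7h70.GC
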