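import Pool.Agent.L7h70.GC.Det
import Pool.Agent.L7h70.GC.Coarse

/-! Generic coefficients: assembly. -/

set_option autoImplicit false

namespace Pool.Agent.L7h70.GC

open Finset MeasureTheory Filter
open Pool.Agent.L7h43.MW (ee continuous_ee)

lemma quarter_le {c : ℝ} (hc : 1 ≤ c) : 1 / 4 ≤ (3 / 2 : ℝ) ^ c - (5 / 4 : ℝ) ^ c := by
  have h1 : (5 / 4 : ℝ) ≤ (5 / 4 : ℝ) ^ c := by
    calc (5 / 4 : ℝ) = (5 / 4 : ℝ) ^ (1 : ℝ) := (Real.rpow_one _).symm
      _ ≤ _ := Real.rpow_le_rpow_of_exponent_le (by norm_num) hc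
  have h2 : (6 / 5 : ℝ) ≤ (6 / 5 : ℝ) ^ c := by
    calc (6 / 5 : ℝ) = (6 / 5 : ℝ) ^ (1 : ℝ) := (Real.rpow_one _).symm
      _ ≤ _ := Real.rpow_le_rpow_of_exponent_le (by norm_num) hc
  have h3 : (3 / 2 : ℝ) ^ c = (5 / 4 : ℝ) ^ c * (6 / 5 : ℝ) ^ c := by
    rw [← Real.mul_rpow (by norm_num) (by norm_num)]; norm_num
  rw [h3]
  nlinarith

/-- a bound for a first moment from a second moment -/
lemma first_of_second {Ω : Type} [MeasurableSpace Ω] (μ : Measure Ω) [IsFiniteMeasure μ] (g : Ω → ℝ)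
    (hg : ∀ ω, 0 ≤ g ω) (b K M : ℝ) (hb : 0 < b) (hK : 0 ≤ K) (hM : μ Set.univ ≤ ENNReal.ofReal M)
    (hM0 : 0 ≤ M)
    (h : ∫⁻ ω, ENNReal.ofReal (g ω ^ 2) ∂μ ≤ ENNReal.ofReal (K * b ^ 2)) :
    ∫⁻ ω, ENNReal.ofReal (g ω) ∂μ ≤ ENNReal.ofReal ((K + M) * b) := by
  calc ∫⁻ ω, ENNReal.ofReal (g ω) ∂μ ≤
      ∫⁻ ω, (ENNReal.ofReal (1 / b) * ENNReal.ofReal (g ω ^ 2) + ENNReal.ofReal b) ∂μ := by
        refine lintegral_mono fun ω => ?_
        rw [← ENNReal.ofReal_mul (by positivity), ← ENNReal.ofReal_add (by positivity) hb.le]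
        apply ENNReal.ofReal_le_ofReal
        have h1 : 0 ≤ (g ω / b - 1) ^ 2 := sq_nonneg _
        have h2 : g ω ≤ b * ((g ω / b) ^ 2 + 1) := by
          have h3 : g ω = b * (g ω / b) := by field_simp
          have h4 : g ω / b ≤ (g ω / b) ^ 2 + 1 := by nlinarith [hg ω]
          calc g ω = b * (g ω / b) := h3
            _ ≤ b * ((g ω / b) ^ 2 + 1) := by gcongr
        calc g ω ≤ b * ((g ω / b) ^ 2 + 1) := h2
          _ = 1 / b * g ω ^ 2 + b := by field_simp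
    _ = ENNReal.ofReal (1 / b) * ∫⁻ ω, ENNReal.ofReal (g ω ^ 2) ∂μ + ENNReal.ofReal b * μ Set.univ := by
        rw [lintegral_add_right _ measurable_const, lintegral_const,
          lintegral_const_mul' _ _ ENNReal.ofReal_ne_top]
    _ ≤ ENNReal.ofReal (1 / b) * ENNReal.ofReal (K * b ^ 2) + ENNReal.ofReal b * ENNReal.ofReal M := by
        gcongr
    _ = ENNReal.ofReal ((K + M) * b) := by
        rw [← ENNReal.ofReal_mul (by positivity), ← ENNReal.ofReal_mul hb.le,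
          ← ENNReal.ofReal_add (by positivity) (by positivity)]
        congr 1
        field_simp

lemma cont_SS (n c : ℝ) : Continuous fun p : ℝ × ℝ => SS n p.1 c p.2 := by
  unfold SS
  refine continuous_finsetSum _ fun x _ => continuous_ee.comp ?_
  fun_prop

/-- the logarithm is small -/
lemma log_small (K ε : ℝ) (hε : 0 < ε) : ∀ᶠ H : ℝ in atTop, K * (1 + Real.log H) + K ≤ H ^ ε := by
  have h1 := (isLittleO_log_rpow_atTop (show 0 < ε by exact hε)).bound
    (show (0 : ℝ) < 1 / (2 * (|K| + 1)) by positivity)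
  have h2 : Tendsto (fun H : ℝ => H ^ ε) atTop atTop := tendsto_rpow_atTop hε
  filter_upwards [h1, h2.eventually_ge_atTop (4 * (|K| + 1)), eventually_ge_atTop 1] with H a1 a2 a3
  have h0 : 0 ≤ Real.log H := Real.log_nonneg a3
  rw [Real.norm_of_nonneg h0, Real.norm_of_nonneg (by positivity)] at a1
  have hK := le_abs_self K
  have a4 : (|K| + 1) * Real.log H ≤ H ^ ε / 2 := by
    calc (|K| + 1) * Real.log H ≤ (|K| + 1) * (1 / (2 * (|K| + 1)) * H ^ ε) := by gcongr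
      _ = H ^ ε / 2 := by field_simp
  have a5 : K * Real.log H ≤ (|K| + 1) * Real.log H := by gcongr; linarith
  nlinarith

/-- one box of coefficients -/
lemma box (hP : S_PRB) (hM : S_MSA) {ι : Type} [Fintype ι] [DecidableEq ι] (i₀ : ι) (c : ι → ℝ)
    (hc : ∀ i, 1 ≤ c i) (δ : ℝ) (hδ : 0 ≤ δ) (hs : 2 + 2 * δ < ∑ i, 1 / c i) (m : ℝ) (hm : 1 ≤ m) :
    ∀ᵐ α : ι → ℝ, (∀ i, 1 / m ≤ α i ∧ α i ≤ m) → ∀ᶠ τ : ℝ in atTop,
      ∃ x : ι → ℕ, (∀ i, 0 < x i) ∧ |GG α c x - τ| < τ ^ (-δ) := by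
  have hm0 : 0 < m := by linarith
  set σ : ℝ := ∑ i, 1 / c i with hσ
  set δ1 : ℝ := δ + (σ - 2 - 2 * δ) / 4 with hδ1
  have e1 : δ < δ1 := by rw [hδ1]; linarith
  have e2 : 2 + 2 * δ1 < σ := by rw [hδ1]; linarith
  have hδ10 : 0 ≤ δ1 := by linarith
  set e : ι → ℝ := fun i => 1 / (2 * (c i * (1 + δ1))) with he
  have hesum : 1 < ∑ i, e i := by
    have h1 : ∑ i, e i = σ / (2 * (1 + δ1)) := by
      rw [hσ, Finset.sum_div]
      refine Finset.sum_congr rfl fun i _ => ?_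
      have : c i ≠ 0 := by linarith [hc i]
      have : (1 + δ1) ≠ 0 := by linarith
      rw [he]; field_simp
    rw [h1, lt_div_iff₀ (by linarith)]
    linarith
  have hc0 := hc i₀
  set κ : ℝ := 1 / (4 * c i₀) with hκ
  have hκp : 0 < κ := by rw [hκ]; have : 0 < c i₀ := by linarith
                         positivity
  have hκ2 : κ < 1 / (2 * c i₀) := by
    rw [hκ]
    apply one_div_lt_one_div_of_lt <;> nlinarith
  set g : ℝ := κ * (∑ i, e i - 1) with hg
  have hgp : 0 < g := by rw [hg]; apply mul_pos hκp; linarith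
  set η : ℝ := g / 2 with hη
  set ε : ℝ := g / (4 * (Fintype.card ι + 1)) with hε
  have hεp : 0 < ε := by rw [hε]; positivity
  have hεs : Fintype.card ι * ε + η < g := by
    have h1 : Fintype.card ι * ε ≤ g / 4 := by
      rw [hε]
      have h2 : (Fintype.card ι : ℝ) * (g / (4 * (Fintype.card ι + 1))) =
        g / 4 * (Fintype.card ι / (Fintype.card ι + 1)) := by field_simp
      rw [h2]
      have h3 : (Fintype.card ι : ℝ) / (Fintype.card ι + 1) ≤ 1 := by
        rw [div_le_one (by positivity)]; linarith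
      calc g / 4 * (Fintype.card ι / (Fintype.card ι + 1)) ≤ g / 4 * 1 := by gcongr
        _ = g / 4 := mul_one _
    rw [hη]; linarith
  -- the dominant variable
  set B : ℝ := 4 * m ^ 2 * ∑ i, (4 : ℝ) ^ c i + 1 with hB
  have hB1 : 1 ≤ B := by
    have : 0 ≤ 4 * m ^ 2 * ∑ i, (4 : ℝ) ^ c i := by
      have : 0 ≤ ∑ i, (4 : ℝ) ^ c i := Finset.sum_nonneg fun i _ => by positivity
      positivity
    linarith
  set A : ι → ℝ := fun i => if i = i₀ then B else 1 with hA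
  have hA1 : ∀ i, 1 ≤ A i := by
    intro i; rw [hA]; dsimp only; split_ifs
    · exact hB1
    · exact le_rfl
  have hdom : ∀ α : ι → ℝ, (∀ i, 1 / m ≤ α i ∧ α i ≤ m) → Dom i₀ α A c := by
    intro α hα
    refine ⟨fun i => lt_of_lt_of_le (by positivity) (hα i).1, hA1, hc, ?_⟩
    have h1 : ∑ i ∈ univ.erase i₀, α i * (4 * A i) ^ c i ≤ m * ∑ i, (4 : ℝ) ^ c i := by
      calc ∑ i ∈ univ.erase i₀, α i * (4 * A i) ^ c i ≤ ∑ i ∈ univ.erase i₀, m * (4 : ℝ) ^ c i := by
            refine Finset.sum_le_sum fun i hi => ?_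
            have : A i = 1 := by rw [hA]; simp [Finset.ne_of_mem_erase hi]
            rw [this, mul_one]
            have := (hα i).2
            gcongr
        _ ≤ ∑ i, m * (4 : ℝ) ^ c i :=
            Finset.sum_le_sum_of_subset_of_nonneg (erase_subset _ _) fun i _ _ => by positivity
        _ = _ := by rw [Finset.mul_sum]
    have h2 : A i₀ = B := by rw [hA]; simp
    have h3 : B ≤ B ^ c i₀ := by
      calc B = B ^ (1 : ℝ) := (Real.rpow_one _).symm
        _ ≤ _ := Real.rpow_le_rpow_of_exponent_le hB1 hc0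
    have h4 := quarter_le hc0
    have h5 : 1 / m * B * (1 / 4) ≤ α i₀ * A i₀ ^ c i₀ * ((3 / 2 : ℝ) ^ c i₀ - (5 / 4 : ℝ) ^ c i₀) := by
      rw [h2]
      have hBp : 0 ≤ B := by linarith
      have hαp : 0 ≤ α i₀ := le_trans (by positivity) (hα i₀).1
      exact mul_le_mul (mul_le_mul (hα i₀).1 h3 hBp hαp) h4 (by norm_num)
        (mul_nonneg hαp (hBp.trans h3))
    refine h1.trans (le_trans ?_ h5)
    have h6 : ∀ S : ℝ, 1 / m * (4 * m ^ 2 * S + 1) * (1 / 4) = m * S + 1 / (4 * m) := by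
      intro S; field_simp
    rw [hB, h6]
    have h7 : 0 < 1 / (4 * m) := by positivity
    linarith
  -- moments
  choose C hC0 hC using fun i => hM (c i) (A i) m δ1 (hc i) (hA1 i) hm hδ10
  set μ : ι → Measure ℝ := fun _ => volume.restrict (Set.Icc (1 / m) m) with hμ
  haveI : ∀ i, IsFiniteMeasure (μ i) := fun i => by rw [hμ]; infer_instance
  set G : ℕ → ι → ℝ → ℝ → ENNReal := fun l i ω ξ =>
    ENNReal.ofReal (‖SS (nn A c l i) ω (c i) ξ‖ / nn A c l i) with hG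
  have hmeas : ∀ l i, Measurable fun p : ℝ × ℝ => G l i p.1 p.2 := by
    intro l i
    exact (((cont_SS (nn A c l i) (c i)).norm.div_const _).measurable).ennreal_ofReal
  have hmom : ∀ᶠ l : ℕ in atTop, ∀ i, ∀ ξ : ℝ, ((2 : ℝ) ^ l) ^ (-1 + κ) ≤ ξ → ξ ≤ ((2 : ℝ) ^ l) ^ δ1 →
      ∫⁻ ω, G l i ω ξ ∂(μ i) ≤ ENNReal.ofReal (((2 : ℝ) ^ l) ^ ε * (ξ * 2 ^ l) ^ (-(e i))) := by
    have h1 : ∀ᶠ l : ℕ in atTop, ∀ i, C i * (1 + Real.log ((2 : ℝ) ^ l)) + m ≤ ((2 : ℝ) ^ l) ^ ε := by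
      rw [Filter.eventually_all]
      intro i
      have h2 := tend2.eventually (log_small (C i + m) ε hεp)
      filter_upwards [h2] with l hl
      have h3 : 0 ≤ Real.log ((2 : ℝ) ^ l) := Real.log_nonneg (one_le_pow₀ (by norm_num))
      have := hC0 i
      nlinarith
    filter_upwards [h1] with l hl i ξ hξ1 hξ2
    set H : ℝ := (2 : ℝ) ^ l with hH
    have hH1 : 1 ≤ H := one_le_pow₀ (by norm_num)
    have hH0 : 0 < H := by linarith
    have hlog : 0 ≤ Real.log H := Real.log_nonneg hH1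
    have hξH : 1 / H ≤ ξ := by
      refine le_trans ?_ hξ1
      rw [one_div, ← Real.rpow_neg_one]
      exact Real.rpow_le_rpow_of_exponent_le hH1 (by linarith)
    have hξ0 : 0 < ξ := lt_of_lt_of_le (by positivity) hξH
    have hn : 0 < nn A c l i := by linarith [nn_ge (l := l) (hA1 i) (hc i)]
    have h2 := hC i H hH1 ξ hξH hξ2
    have h2' : ∫⁻ a in Set.Icc (1 / m) m, ENNReal.ofReal (‖SS (nn A c l i) a (c i) ξ‖ ^ 2) ≤
        ENNReal.ofReal (C i * (1 + Real.log H) * (nn A c l i) ^ 2 *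
          (ξ * H) ^ (-(1 / (c i * (1 + δ1))))) := h2
    have h3 : ∫⁻ ω, ENNReal.ofReal ((‖SS (nn A c l i) ω (c i) ξ‖ / nn A c l i) ^ 2) ∂(μ i) ≤
        ENNReal.ofReal (C i * (1 + Real.log H) * ((ξ * H) ^ (-(e i))) ^ 2) := by
      have e3 : ∀ ω, ENNReal.ofReal ((‖SS (nn A c l i) ω (c i) ξ‖ / nn A c l i) ^ 2) =
          ENNReal.ofReal (1 / (nn A c l i) ^ 2) * ENNReal.ofReal (‖SS (nn A c l i) ω (c i) ξ‖ ^ 2) := by
        intro ω
        rw [← ENNReal.ofReal_mul (by positivity)]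
        congr 1
        rw [div_pow]; ring
      simp_rw [e3]
      rw [lintegral_const_mul' _ _ ENNReal.ofReal_ne_top]
      calc ENNReal.ofReal (1 / (nn A c l i) ^ 2) *
          ∫⁻ ω, ENNReal.ofReal (‖SS (nn A c l i) ω (c i) ξ‖ ^ 2) ∂(μ i) ≤
          ENNReal.ofReal (1 / (nn A c l i) ^ 2) * ENNReal.ofReal (C i * (1 + Real.log H) * (nn A c l i) ^ 2 *
          (ξ * H) ^ (-(1 / (c i * (1 + δ1))))) := by
            gcongr
        _ = _ := by
            rw [← ENNReal.ofReal_mul (by positivity)]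
            congr 1
            have e4 : ((ξ * H) ^ (-(e i))) ^ 2 = (ξ * H) ^ (-(1 / (c i * (1 + δ1)))) := by
              rw [← Real.rpow_natCast, ← Real.rpow_mul (by positivity)]
              congr 1
              have : c i ≠ 0 := by linarith [hc i]
              have : (1 + δ1) ≠ 0 := by linarith
              rw [he]; push_cast; field_simp
            rw [e4]; field_simp
    have hvol : μ i Set.univ ≤ ENNReal.ofReal m := by
      rw [hμ]
      simp only [Measure.restrict_apply_univ, Real.volume_Icc]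
      apply ENNReal.ofReal_le_ofReal
      have : 0 < 1 / m := by positivity
      linarith
    refine (first_of_second (μ i) (fun ω => ‖SS (nn A c l i) ω (c i) ξ‖ / nn A c l i)
      (fun ω => by positivity) ((ξ * H) ^ (-(e i))) (C i * (1 + Real.log H)) m (by positivity)
      (by have := hC0 i; positivity) hvol hm0.le h3).trans ?_
    apply ENNReal.ofReal_le_ofReal
    have := hl i
    gcongr
  have hprb := hP ι μ G hmeas e κ δ1 η ε hκp hεp hεs hmom (by rw [hη]; linarith)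
  have hpi : Measure.pi μ = (volume : Measure (ι → ℝ)).restrict
      (Set.pi Set.univ fun _ : ι => Set.Icc (1 / m) m) := by
    rw [hμ, volume_pi, Measure.restrict_pi_pi]
  rw [hpi, ae_restrict_iff' (MeasurableSet.univ_pi fun _ => measurableSet_Icc)] at hprb
  filter_upwards [hprb] with α hα hbox
  exact s_DET s_COARSE ι i₀ α A c (hdom α hbox) δ δ1 κ η hδ e1 hκp hκ2 (by rw [hη]; linarith)
    (hα (fun i _ => ⟨(hbox i).1, (hbox i).2⟩))

/-- generic coefficients, every large target -/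
theorem coef (hP : S_PRB) (hM : S_MSA) (ι : Type) [Fintype ι] (c : ι → ℝ) (hc : ∀ i, 1 ≤ c i) (δ : ℝ)
    (hδ : 0 ≤ δ) (hs : 2 + 2 * δ < ∑ i, 1 / c i) :
    ∀ᵐ α : ι → ℝ, (∀ i, 0 < α i) → ∀ᶠ τ : ℝ in atTop,
      ∃ x : ι → ℕ, (∀ i, 0 < x i) ∧ |∑ i, α i * (x i : ℝ) ^ c i - τ| < τ ^ (-δ) := by
  classical
  have hne : Nonempty ι := by
    by_contra h
    rw [not_nonempty_iff] at h
    simp at hs
    linarith
  obtain ⟨i₀⟩ := hne
  have h1 : ∀ᵐ α : ι → ℝ, ∀ m : ℕ, (∀ i, 1 / ((m : ℝ) + 1) ≤ α i ∧ α i ≤ (m : ℝ) + 1) →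
      ∀ᶠ τ : ℝ in atTop, ∃ x : ι → ℕ, (∀ i, 0 < x i) ∧ |GG α c x - τ| < τ ^ (-δ) := by
    rw [ae_all_iff]
    intro m
    exact box hP hM i₀ c hc δ hδ hs ((m : ℝ) + 1) (by
      have : (0 : ℝ) ≤ m := Nat.cast_nonneg m
      linarith)
  filter_upwards [h1] with α hα hpos
  obtain ⟨m, hm⟩ := exists_nat_ge (∑ i, (α i + 1 / α i))
  refine hα m fun i => ?_
  have h2 : α i + 1 / α i ≤ m := by
    refine le_trans ?_ hm
    exact Finset.single_le_sum (f := fun i => α i + 1 / α i)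
      (fun j _ => by have := hpos j; positivity) (mem_univ i)
  have h3 := hpos i
  have h4 : 0 < 1 / α i := by positivity
  constructor
  · rw [div_le_iff₀ (by positivity)]
    have h5 : 1 / α i ≤ m + 1 := by linarith
    rw [div_le_iff₀ h3] at h5
    linarith
  · linarith

end Pool.Agent.L7h70.GC
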