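import Pool.Agent.L7h70.GC.Stm
import Pool.Agent.L7h43.MW.Kern

/-! Basic facts on the sums and a comparison of two scales. -/

set_option autoImplicit false

namespace Pool.Agent.L7h70.GC

open Finset MeasureTheory Filter
open Pool.Agent.L7h43.MW (ee norm_ee ee_add ee_neg ee_sum continuous_ee Kr Kr_nonneg Kr_le_gauss Kr_le_sq cmp)

lemma mem_XX {n : ℝ} (hn : 0 ≤ n) {x : ℕ} : x ∈ XX n ↔ n < x ∧ (x : ℝ) ≤ 4 * n := by
  unfold XX
  rw [mem_Ioc, Nat.floor_lt hn, Nat.le_floor_iff (by positivity)]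

lemma card_XX_le {n : ℝ} (hn : 0 ≤ n) : ((XX n).card : ℝ) ≤ 4 * n := by
  unfold XX
  rw [Nat.card_Ioc]
  have h1 : ((⌊4 * n⌋₊ - ⌊n⌋₊ : ℕ) : ℝ) ≤ (⌊4 * n⌋₊ : ℝ) := by exact_mod_cast Nat.sub_le _ _
  exact h1.trans (Nat.floor_le (by positivity))

lemma le_card_XX {n : ℝ} (hn : 1 ≤ n) : n ≤ ((XX n).card : ℝ) := by
  unfold XX
  rw [Nat.card_Ioc]
  have h0 : ⌊n⌋₊ ≤ ⌊4 * n⌋₊ := Nat.floor_le_floor (by linarith)
  rw [Nat.cast_sub h0]
  have h1 := Nat.floor_le (show 0 ≤ n by linarith)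
  have h2 := Nat.lt_floor_add_one (4 * n)
  linarith

lemma norm_SS_le {n a c ξ : ℝ} (hn : 0 ≤ n) : ‖SS n a c ξ‖ ≤ 4 * n := by
  unfold SS
  calc ‖∑ x ∈ XX n, ee (ξ * (a * (x : ℝ) ^ c))‖ ≤ ∑ x ∈ XX n, ‖ee (ξ * (a * (x : ℝ) ^ c))‖ :=
        norm_sum_le _ _
    _ = ((XX n).card : ℝ) := by simp [norm_ee]
    _ ≤ 4 * n := card_XX_le hn

lemma nn_ge {ι : Type} {A c : ι → ℝ} {l : ℕ} {i : ι} (hA : 1 ≤ A i) (hc : 1 ≤ c i) : 1 ≤ nn A c l i := by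
  unfold nn
  have h1 : (1 : ℝ) ≤ ((2 : ℝ) ^ l) ^ (1 / c i) := by
    apply Real.one_le_rpow (one_le_pow₀ (by norm_num))
    positivity
  nlinarith

lemma sum_BX {ι : Type} [Fintype ι] [DecidableEq ι] (a A c : ι → ℝ) (l : ℕ) (τ ξ : ℝ) :
    ‖∑ x ∈ BX A c l, ee (ξ * (GG a c x - τ))‖ = ∏ i, ‖SS (nn A c l i) (a i) (c i) ξ‖ := by
  have h1 : ∀ x : ι → ℕ, ee (ξ * (GG a c x - τ)) = ee (-(ξ * τ)) * ∏ i, ee (ξ * (a i * (x i : ℝ) ^ c i)) := by
    intro x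
    rw [← ee_sum, ← ee_add]
    congr 1
    unfold GG
    rw [← Finset.mul_sum]
    ring
  simp_rw [h1]
  rw [← Finset.mul_sum, norm_mul, norm_ee, one_mul, ← norm_prod]
  congr 1
  unfold SS BX
  rw [Finset.prod_univ_sum]

lemma card_BX {ι : Type} [Fintype ι] [DecidableEq ι] {A c : ι → ℝ} {l : ℕ} (hA : ∀ i, 1 ≤ A i)
    (hc : ∀ i, 1 ≤ c i) : ((BX A c l).card : ℝ) ≤ 4 ^ Fintype.card ι * ∏ i, nn A c l i := by
  unfold BX
  rw [Fintype.card_piFinset]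
  push_cast
  calc ∏ i, ((XX (nn A c l i)).card : ℝ) ≤ ∏ i, (4 * nn A c l i) :=
        Finset.prod_le_prod (fun i _ => by positivity)
          (fun i _ => card_XX_le (by linarith [nn_ge (l := l) (hA i) (hc i)]))
    _ = _ := by rw [Finset.prod_mul_distrib]; simp

lemma large (a b K : ℝ) (hab : a < b) : ∀ᶠ H : ℝ in atTop, K * H ^ a ≤ H ^ b := by
  have h1 : Tendsto (fun H : ℝ => H ^ (b - a)) atTop atTop := tendsto_rpow_atTop (by linarith)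
  filter_upwards [h1.eventually_ge_atTop K, eventually_gt_atTop 0] with H hH h0
  calc K * H ^ a ≤ H ^ (b - a) * H ^ a := by gcongr
    _ = _ := by rw [← Real.rpow_add h0]; congr 1; ring

lemma tiny (g K a : ℝ) (hg : 0 < g) (k : ℝ) (hk : 0 < k) :
    ∀ᶠ H : ℝ in atTop, K * H ^ a * Real.exp (-(k * (H ^ g) ^ 2)) ≤ 1 := by
  have h := tendsto_rpow_mul_exp_neg_mul_atTop_nhds_zero (a / (2 * g)) k hk
  have h2 : Tendsto (fun X : ℝ => X ^ (2 * g)) atTop atTop := tendsto_rpow_atTop (by positivity)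
  have h3 := ((h.comp h2).const_mul K)
  rw [mul_zero] at h3
  filter_upwards [h3.eventually (gt_mem_nhds (show (0 : ℝ) < 1 by norm_num)), eventually_gt_atTop 0]
    with H hH h0
  simp only [Function.comp] at hH
  refine le_trans (le_of_eq ?_) hH.le
  rw [← Real.rpow_mul h0.le, ← Real.rpow_natCast (H ^ g) 2, ← Real.rpow_mul h0.le, mul_assoc]
  have e1 : 2 * g * (a / (2 * g)) = a := by field_simp
  have e2 : g * ((2 : ℕ) : ℝ) = 2 * g := by push_cast; ring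
  rw [e1, e2]
  congr 3
  ring

lemma tend2 : Tendsto (fun l : ℕ => (2 : ℝ) ^ l) atTop atTop :=
  tendsto_pow_atTop_atTop_of_one_lt (by norm_num)

/-- tail of the Gaussian -/
lemma gtail (R B : ℝ) (hR : 0 < R) (hB : 0 < B) :
    ∫⁻ ξ in Set.Ioi B, ENNReal.ofReal (Real.exp (-(Real.pi * ξ ^ 2 / R ^ 2))) ≤
      ENNReal.ofReal (2 * R * Real.exp (-(Real.pi / 2 * (B / R) ^ 2))) := by
  have hpi := Real.pi_pos
  have hpt : ∀ ξ ∈ Set.Ioi B, Real.exp (-(Real.pi * ξ ^ 2 / R ^ 2)) ≤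
      Real.exp (-(Real.pi / 2 * (B / R) ^ 2)) * Real.exp (-(Real.pi / (2 * R ^ 2)) * ξ ^ 2) := by
    intro ξ hξ
    have hξB : B < ξ := hξ
    rw [← Real.exp_add]
    apply Real.exp_le_exp.2
    have h1 : (B / R) ^ 2 ≤ ξ ^ 2 / R ^ 2 := by
      rw [div_pow]
      gcongr
    have h5 : Real.pi * ξ ^ 2 / R ^ 2 = Real.pi / 2 * (ξ ^ 2 / R ^ 2) + Real.pi / (2 * R ^ 2) * ξ ^ 2 := by
      field_simp; ring
    rw [h5]
    nlinarith
  have hgi : Integrable (fun ξ : ℝ => Real.exp (-(Real.pi / (2 * R ^ 2)) * ξ ^ 2)) :=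
    integrable_exp_neg_mul_sq (by positivity)
  have hint : ∫⁻ ξ : ℝ, ENNReal.ofReal (Real.exp (-(Real.pi / (2 * R ^ 2)) * ξ ^ 2)) ≤ ENNReal.ofReal (2 * R) := by
    rw [← ofReal_integral_eq_lintegral_ofReal hgi (Filter.Eventually.of_forall fun _ => (Real.exp_pos _).le)]
    apply ENNReal.ofReal_le_ofReal
    rw [integral_gaussian]
    have e1 : Real.pi / (Real.pi / (2 * R ^ 2)) = 2 * R ^ 2 := by field_simp
    rw [e1]
    apply Real.sqrt_le_iff.2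
    constructor
    · positivity
    · nlinarith [sq_nonneg R]
  calc ∫⁻ ξ in Set.Ioi B, ENNReal.ofReal (Real.exp (-(Real.pi * ξ ^ 2 / R ^ 2))) ≤
      ∫⁻ ξ in Set.Ioi B, ENNReal.ofReal (Real.exp (-(Real.pi / 2 * (B / R) ^ 2))) *
        ENNReal.ofReal (Real.exp (-(Real.pi / (2 * R ^ 2)) * ξ ^ 2)) := by
        refine setLIntegral_mono' measurableSet_Ioi fun ξ hξ => ?_
        rw [← ENNReal.ofReal_mul (by positivity)]
        exact ENNReal.ofReal_le_ofReal (hpt ξ hξ)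
    _ ≤ ∫⁻ ξ : ℝ, ENNReal.ofReal (Real.exp (-(Real.pi / 2 * (B / R) ^ 2))) *
        ENNReal.ofReal (Real.exp (-(Real.pi / (2 * R ^ 2)) * ξ ^ 2)) := setLIntegral_le_lintegral _ _
    _ = ENNReal.ofReal (Real.exp (-(Real.pi / 2 * (B / R) ^ 2))) *
        ∫⁻ ξ : ℝ, ENNReal.ofReal (Real.exp (-(Real.pi / (2 * R ^ 2)) * ξ ^ 2)) :=
        lintegral_const_mul' _ _ ENNReal.ofReal_ne_top
    _ ≤ ENNReal.ofReal (Real.exp (-(Real.pi / 2 * (B / R) ^ 2))) * ENNReal.ofReal (2 * R) := by gcongr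
    _ = _ := by rw [← ENNReal.ofReal_mul (by positivity)]; congr 1; ring

/-- comparison of the two scales, with the range of integration cut into three parts -/
lemma core {κ : Type} (V : Finset κ) (u : κ → ℝ) (R R0 B0 B1 M P : ℝ) (h0 : 0 < R0) (hR : R0 ≤ R)
    (hB0 : 0 < B0) (hB1 : B0 ≤ B1) (hP : (V.card : ℝ) ≤ P) (hM : 0 ≤ M)
    (hI : ∫⁻ ξ in Set.Ioc B0 B1, ENNReal.ofReal ‖∑ v ∈ V, ee (ξ * u v)‖ ≤ ENNReal.ofReal M) :
    |∑ v ∈ V, R * Real.exp (-(Real.pi * R ^ 2 * u v ^ 2)) -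
      ∑ v ∈ V, R0 * Real.exp (-(Real.pi * R0 ^ 2 * u v ^ 2))| ≤
    2 * (Real.pi * B0 ^ 2 / R0 ^ 2 * P * B0 + M + P * (2 * R * Real.exp (-(Real.pi / 2 * (B1 / R) ^ 2)))) := by
  have hpi := Real.pi_pos
  have hRp : 0 < R := lt_of_lt_of_le h0 hR
  have hP0 : 0 ≤ P := le_trans (by positivity) hP
  have hn : ∀ ξ, ‖∑ v ∈ V, ee (ξ * u v)‖ ≤ P := fun ξ =>
    calc ‖∑ v ∈ V, ee (ξ * u v)‖ ≤ ∑ v ∈ V, ‖ee (ξ * u v)‖ := norm_sum_le _ _
      _ = V.card := by simp [norm_ee]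
      _ ≤ P := hP
  have hB1p : 0 < B1 := lt_of_lt_of_le hB0 hB1
  have key := cmp V u R R0 h0 hR
  have hsplit : Set.Ioi (0 : ℝ) = (Set.Ioc 0 B0 ∪ Set.Ioc B0 B1) ∪ Set.Ioi B1 := by
    rw [Set.Ioc_union_Ioc_eq_Ioc hB0.le hB1, Set.Ioc_union_Ioi_eq_Ioi hB1p.le]
  have hle : ∫⁻ ξ in Set.Ioi (0 : ℝ), ENNReal.ofReal (Kr R R0 ξ * ‖∑ v ∈ V, ee (ξ * u v)‖) ≤
      ENNReal.ofReal (Real.pi * B0 ^ 2 / R0 ^ 2 * P * B0 + M +
        P * (2 * R * Real.exp (-(Real.pi / 2 * (B1 / R) ^ 2)))) := by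
    rw [hsplit]
    refine (lintegral_union_le _ _ _).trans ?_
    rw [ENNReal.ofReal_add (by positivity) (by positivity)]
    refine add_le_add ((lintegral_union_le _ _ _).trans ?_) ?_
    · rw [ENNReal.ofReal_add (by positivity) hM]
      refine add_le_add ?_ ?_
      · calc ∫⁻ ξ in Set.Ioc 0 B0, ENNReal.ofReal (Kr R R0 ξ * ‖∑ v ∈ V, ee (ξ * u v)‖) ≤
            ∫⁻ _ξ in Set.Ioc 0 B0, ENNReal.ofReal (Real.pi * B0 ^ 2 / R0 ^ 2 * P) := by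
              refine setLIntegral_mono' measurableSet_Ioc fun ξ hξ => ?_
              apply ENNReal.ofReal_le_ofReal
              have h1 := Kr_le_sq R R0 ξ
              have h2 : Real.pi * ξ ^ 2 / R0 ^ 2 ≤ Real.pi * B0 ^ 2 / R0 ^ 2 := by
                have : ξ ^ 2 ≤ B0 ^ 2 := pow_le_pow_left₀ hξ.1.le hξ.2 2
                gcongr
              exact mul_le_mul (h1.trans h2) (hn ξ) (norm_nonneg _) (by positivity)
          _ = ENNReal.ofReal (Real.pi * B0 ^ 2 / R0 ^ 2 * P * B0) := by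
              rw [setLIntegral_const, Real.volume_Ioc, sub_zero, ← ENNReal.ofReal_mul (by positivity)]
      · refine le_trans (setLIntegral_mono' measurableSet_Ioc fun ξ _ => ?_) hI
        apply ENNReal.ofReal_le_ofReal
        have h1 : Kr R R0 ξ ≤ 1 := (Kr_le_gauss R R0 ξ).trans (by
          rw [Real.exp_le_one_iff]
          have : 0 ≤ Real.pi * ξ ^ 2 / R ^ 2 := by positivity
          linarith)
        calc Kr R R0 ξ * ‖∑ v ∈ V, ee (ξ * u v)‖ ≤ 1 * ‖∑ v ∈ V, ee (ξ * u v)‖ := by gcongr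
          _ = _ := one_mul _
    · calc ∫⁻ ξ in Set.Ioi B1, ENNReal.ofReal (Kr R R0 ξ * ‖∑ v ∈ V, ee (ξ * u v)‖) ≤
          ∫⁻ ξ in Set.Ioi B1, ENNReal.ofReal P * ENNReal.ofReal (Real.exp (-(Real.pi * ξ ^ 2 / R ^ 2))) := by
            refine lintegral_mono fun ξ => ?_
            rw [← ENNReal.ofReal_mul hP0]
            apply ENNReal.ofReal_le_ofReal
            rw [mul_comm P]
            exact mul_le_mul (Kr_le_gauss R R0 ξ) (hn ξ) (norm_nonneg _) (Real.exp_pos _).le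
        _ = ENNReal.ofReal P * ∫⁻ ξ in Set.Ioi B1, ENNReal.ofReal (Real.exp (-(Real.pi * ξ ^ 2 / R ^ 2))) :=
            lintegral_const_mul' _ _ ENNReal.ofReal_ne_top
        _ ≤ ENNReal.ofReal P * ENNReal.ofReal (2 * R * Real.exp (-(Real.pi / 2 * (B1 / R) ^ 2))) := by
            gcongr
            exact gtail R B1 hRp hB1p
        _ = _ := by rw [← ENNReal.ofReal_mul hP0]
  have h3 : ENNReal.ofReal |∑ v ∈ V, R * Real.exp (-(Real.pi * R ^ 2 * u v ^ 2)) -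
      ∑ v ∈ V, R0 * Real.exp (-(Real.pi * R0 ^ 2 * u v ^ 2))| ≤
      ENNReal.ofReal (2 * (Real.pi * B0 ^ 2 / R0 ^ 2 * P * B0 + M +
        P * (2 * R * Real.exp (-(Real.pi / 2 * (B1 / R) ^ 2))))) := by
    refine key.trans ?_
    rw [ENNReal.ofReal_mul (by norm_num : (0 : ℝ) ≤ 2), ENNReal.ofReal_ofNat]
    gcongr
  exact (ENNReal.ofReal_le_ofReal_iff (by positivity)).1 h3

/-- existence of a small value -/
lemma core_exists {κ : Type} (V : Finset κ) (u : κ → ℝ) (R R0 B0 B1 M P b ρ : ℝ) (h0 : 0 < R0) (hR : R0 ≤ R)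
    (hB0 : 0 < B0) (hB1 : B0 ≤ B1) (hP : (V.card : ℝ) ≤ P) (hM : 0 ≤ M) (hρ : 0 ≤ ρ)
    (hI : ∫⁻ ξ in Set.Ioc B0 B1, ENNReal.ofReal ‖∑ v ∈ V, ee (ξ * u v)‖ ≤ ENNReal.ofReal M)
    (hb : b ≤ ∑ v ∈ V, R0 * Real.exp (-(Real.pi * R0 ^ 2 * u v ^ 2)))
    (hlt : 2 * (Real.pi * B0 ^ 2 / R0 ^ 2 * P * B0 + M +
      P * (2 * R * Real.exp (-(Real.pi / 2 * (B1 / R) ^ 2)))) +
        P * (R * Real.exp (-(Real.pi * (R * ρ) ^ 2))) < b) : ∃ v ∈ V, |u v| < ρ := by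
  by_contra hcon
  push Not at hcon
  have hpi := Real.pi_pos
  have hRp : 0 < R := lt_of_lt_of_le h0 hR
  have h1 := core V u R R0 B0 B1 M P h0 hR hB0 hB1 hP hM hI
  have h2 : ∑ v ∈ V, R * Real.exp (-(Real.pi * R ^ 2 * u v ^ 2)) ≤
      P * (R * Real.exp (-(Real.pi * (R * ρ) ^ 2))) := by
    calc ∑ v ∈ V, R * Real.exp (-(Real.pi * R ^ 2 * u v ^ 2)) ≤
        ∑ _v ∈ V, R * Real.exp (-(Real.pi * (R * ρ) ^ 2)) := by
          refine Finset.sum_le_sum fun v hv => ?_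
          have h3 : ρ ^ 2 ≤ u v ^ 2 := by
            rw [← sq_abs (u v)]
            exact pow_le_pow_left₀ hρ (hcon v hv) 2
          have h4 : Real.pi * (R * ρ) ^ 2 ≤ Real.pi * R ^ 2 * u v ^ 2 := by
            rw [mul_pow, ← mul_assoc]
            gcongr
          gcongr
      _ = V.card * (R * Real.exp (-(Real.pi * (R * ρ) ^ 2))) := by simp
      _ ≤ _ := by gcongr
  have h5 := abs_le.1 h1
  linarith [h5.1]

end Pool.Agent.L7h70.GC
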