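import Pool.Agent.L7h70.GC.Gen
import Pool.Agent.L7h22.GC.Prb
import Pool.Agent.L7h22.GC.Msa

/-! Generic coefficients: both theorems. -/

set_option autoImplicit false

namespace Pool.Agent.L7h70.GC

open Finset MeasureTheory Filter
open Pool.Agent.L7h43.MW (ee continuous_ee)

/-- the second moment of one sum, normalised -/
lemma momA (hM : S_MSA) (c A m δ : ℝ) (hc : 1 ≤ c) (hA : 1 ≤ A) (hm : 1 ≤ m) (hδ : 0 ≤ δ) :
    ∃ K : ℝ, 0 ≤ K ∧ ∀ H : ℝ, 1 ≤ H → ∀ ξ : ℝ, 1 / H ≤ ξ → ξ ≤ H ^ δ →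
      ∫⁻ ω in Set.Icc (1 / m) m, ENNReal.ofReal ((‖SS (A * H ^ (1 / c)) ω c ξ‖ / (A * H ^ (1 / c))) ^ 2) ≤
        ENNReal.ofReal (K * (1 + Real.log H) * (H ^ (0 : ℝ) * (ξ * H) ^ (-(1 / (2 * (c * (1 + δ)))))) ^ 2) := by
  obtain ⟨K, hK, h⟩ := hM c A m δ hc hA hm hδ
  refine ⟨K, hK.le, fun H hH ξ h1 h2 => ?_⟩
  have hH0 : 0 < H := by linarith
  have hξ0 : 0 < ξ := lt_of_lt_of_le (by positivity) h1
  have hn : 0 < A * H ^ (1 / c) := by positivity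
  set n := A * H ^ (1 / c) with hn'
  have e3 : ∀ ω, ENNReal.ofReal ((‖SS n ω c ξ‖ / n) ^ 2) =
      ENNReal.ofReal (1 / n ^ 2) * ENNReal.ofReal (‖SS n ω c ξ‖ ^ 2) := by
    intro ω
    rw [← ENNReal.ofReal_mul (by positivity)]
    congr 1
    rw [div_pow]; ring
  simp_rw [e3]
  rw [lintegral_const_mul' _ _ ENNReal.ofReal_ne_top]
  calc ENNReal.ofReal (1 / n ^ 2) * ∫⁻ ω in Set.Icc (1 / m) m, ENNReal.ofReal (‖SS n ω c ξ‖ ^ 2) ≤
      ENNReal.ofReal (1 / n ^ 2) * ENNReal.ofReal (K * (1 + Real.log H) * n ^ 2 *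
      (ξ * H) ^ (-(1 / (c * (1 + δ))))) := by
        gcongr
        exact h H hH ξ h1 h2
    _ = _ := by
        rw [← ENNReal.ofReal_mul (by positivity)]
        congr 1
        have e4 : (H ^ (0 : ℝ) * (ξ * H) ^ (-(1 / (2 * (c * (1 + δ)))))) ^ 2 =
            (ξ * H) ^ (-(1 / (c * (1 + δ)))) := by
          rw [Real.rpow_zero, one_mul, sq_rpow (by positivity)]
          congr 1
          have : c ≠ 0 := by linarith
          have : (1 + δ) ≠ 0 := by linarith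
          field_simp
        rw [e4]; field_simp

/-- the sizes -/
lemma domA {ι : Type} [Fintype ι] [DecidableEq ι] (i₀ : ι) (c : ι → ℝ) (hc : ∀ i, 1 ≤ c i) (m : ℝ)
    (hm : 1 ≤ m) : ∃ A : ι → ℝ, (∀ i, 1 ≤ A i) ∧
      ∀ α : ι → ℝ, (∀ i, 1 / m ≤ α i ∧ α i ≤ m) → Dom i₀ α A c := by
  have hm0 : 0 < m := by linarith
  have hc0 := hc i₀
  set B : ℝ := 4 * m ^ 2 * ∑ i, (4 : ℝ) ^ c i + 1 with hB
  have hB1 : 1 ≤ B := by
    have : 0 ≤ 4 * m ^ 2 * ∑ i, (4 : ℝ) ^ c i := by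
      have : 0 ≤ ∑ i, (4 : ℝ) ^ c i := Finset.sum_nonneg fun i _ => by positivity
      positivity
    linarith
  set A : ι → ℝ := fun i => if i = i₀ then B else 1 with hA
  have hA1 : ∀ i, 1 ≤ A i := by
    intro i; rw [hA]; dsimp only; split_ifs
    · exact hB1
    · exact le_rfl
  refine ⟨A, hA1, fun α hα => ⟨fun i => lt_of_lt_of_le (by positivity) (hα i).1, hA1, hc, ?_⟩⟩
  have h1 : ∑ i ∈ univ.erase i₀, α i * (4 * A i) ^ c i ≤ m * ∑ i, (4 : ℝ) ^ c i := by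
    calc ∑ i ∈ univ.erase i₀, α i * (4 * A i) ^ c i ≤ ∑ i ∈ univ.erase i₀, m * (4 : ℝ) ^ c i := by
          refine Finset.sum_le_sum fun i hi => ?_
          have : A i = 1 := by rw [hA]; simp [Finset.ne_of_mem_erase hi]
          rw [this, mul_one]
          have := (hα i).2
          gcongr
      _ ≤ ∑ i, m * (4 : ℝ) ^ c i :=
          Finset.sum_le_sum_of_subset_of_nonneg (erase_subset _ _) fun i _ _ => by positivity
      _ = _ := by rw [Finset.mul_sum]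
  have h2 : A i₀ = B := by rw [hA]; simp
  have h3 : B ≤ B ^ c i₀ := by
    calc B = B ^ (1 : ℝ) := (Real.rpow_one _).symm
      _ ≤ _ := Real.rpow_le_rpow_of_exponent_le hB1 hc0
  have h4 := quarter_le hc0
  have h5 : 1 / m * B * (1 / 4) ≤ α i₀ * A i₀ ^ c i₀ * ((3 / 2 : ℝ) ^ c i₀ - (5 / 4 : ℝ) ^ c i₀) := by
    rw [h2]
    have hBp : 0 ≤ B := by linarith
    have hαp : 0 ≤ α i₀ := le_trans (by positivity) (hα i₀).1
    exact mul_le_mul (mul_le_mul (hα i₀).1 h3 hBp hαp) h4 (by norm_num)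
      (mul_nonneg hαp (hBp.trans h3))
  refine h1.trans (le_trans ?_ h5)
  have h6 : ∀ S : ℝ, 1 / m * (4 * m ^ 2 * S + 1) * (1 / 4) = m * S + 1 / (4 * m) := by
    intro S; field_simp
  rw [hB, h6]
  have h7 : 0 < 1 / (4 * m) := by positivity
  linarith

/-- the parameters -/
lemma params (n : ℕ) (g : ℝ) (hg : 0 < g) : ∃ ε η : ℝ, 0 < ε ∧ 0 < η ∧ n * ε + η < g := by
  refine ⟨g / (4 * (n + 1)), g / 2, by positivity, by positivity, ?_⟩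
  have h2 : (n : ℝ) * (g / (4 * (n + 1))) = g / 4 * (n / (n + 1)) := by field_simp
  have h3 : (n : ℝ) / (n + 1) ≤ 1 := by rw [div_le_one (by positivity)]; linarith
  have h4 : g / 4 * ((n : ℝ) / (n + 1)) ≤ g / 4 * 1 := by gcongr
  rw [h2]; linarith

/-- one box of coefficients, almost all targets -/
lemma boxC (hD : S_DET2) {ι : Type} [Fintype ι] [DecidableEq ι] (i₀ : ι) (c : ι → ℝ)
    (hc : ∀ i, 1 ≤ c i) (δ : ℝ) (hδ : 0 ≤ δ) (hs : 1 + δ < ∑ i, 1 / c i) (m : ℝ) (hm : 1 ≤ m) :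
    ∀ᵐ α : ι → ℝ, (∀ i, 1 / m ≤ α i ∧ α i ≤ m) → ∃ σ : ℝ, 0 < σ ∧ ∀ᶠ N : ℕ in atTop,
      volume {τ : ℝ | 1 ≤ τ ∧ τ ≤ N ∧ ∀ x : ι → ℕ, (∀ i, 0 < x i) → τ ^ (-δ) ≤ |GG α c x - τ|} ≤
        ENNReal.ofReal ((N : ℝ) ^ (1 - σ)) := by
  have hm0 : 0 < m := by linarith
  set σ : ℝ := ∑ i, 1 / c i with hσ
  set δ1 : ℝ := δ + (σ - 1 - δ) / 4 with hδ1
  have e1 : δ < δ1 := by rw [hδ1]; linarith
  have e2 : 1 + δ1 < σ := by rw [hδ1]; linarith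
  have hδ10 : 0 ≤ δ1 := by linarith
  have hesum : 1 < ∑ i, 2 * (1 / (2 * (c i * (1 + δ1)))) := by
    have h1 : ∑ i, 2 * (1 / (2 * (c i * (1 + δ1)))) = σ / (1 + δ1) := by
      rw [hσ, Finset.sum_div]
      refine Finset.sum_congr rfl fun i _ => ?_
      have : c i ≠ 0 := by linarith [hc i]
      have : (1 + δ1) ≠ 0 := by linarith
      field_simp
    rw [h1, lt_div_iff₀ (by linarith)]
    linarith
  have hc0 := hc i₀
  set κ : ℝ := 1 / (4 * c i₀) with hκ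
  have hκp : 0 < κ := by
    have : 0 < c i₀ := by linarith
    positivity
  have hκ2 : κ < 1 / (2 * c i₀) := by
    rw [hκ]
    apply one_div_lt_one_div_of_lt <;> nlinarith
  obtain ⟨ε, η, hε, hη, hεη⟩ := params (Fintype.card ι)
    (κ * (∑ i, 2 * (1 / (2 * (c i * (1 + δ1)))) - 1)) (mul_pos hκp (by linarith))
  obtain ⟨A, hA1, hdom⟩ := domA i₀ c hc m hm
  choose K hK0 hK using fun i => momA Pool.Agent.L7h22.GC.s_MSA (c i) (A i) m δ1 (hc i) (hA1 i) hm hδ10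
  have hprb := gen2 Pool.Agent.L7h22.GC.s_PRB ι (fun _ => volume.restrict (Set.Icc (1 / m) m))
    (fun l i ω ξ => ‖SS (nn A c l i) ω (c i) ξ‖ / nn A c l i)
    (fun l i => ((cont_SS (nn A c l i) (c i)).norm.div_const _).measurable)
    (fun i => 1 / (2 * (c i * (1 + δ1)))) κ δ1 η ε 0 K hκp le_rfl (by linarith) hK0 hη.le hεη
    (by
      refine Filter.Eventually.of_forall fun l i ξ h1 h2 => ?_
      have hH1 : (1 : ℝ) ≤ (2 : ℝ) ^ l := one_le_pow₀ (by norm_num)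
      refine hK i _ hH1 ξ (le_trans ?_ h1) h2
      rw [one_div, ← Real.rpow_neg_one]
      exact Real.rpow_le_rpow_of_exponent_le hH1 (by linarith))
  have hpi : Measure.pi (fun _ : ι => (volume : Measure ℝ).restrict (Set.Icc (1 / m) m)) =
      (volume : Measure (ι → ℝ)).restrict (Set.pi Set.univ fun _ : ι => Set.Icc (1 / m) m) := by
    rw [volume_pi, Measure.restrict_pi_pi]
  rw [hpi, ae_restrict_iff' (MeasurableSet.univ_pi fun _ => measurableSet_Icc)] at hprb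
  filter_upwards [hprb] with α hα hbox
  refine hD ι i₀ α A c (hdom α hbox) δ δ1 κ η hδ e1 hκp hκ2 hη ?_
  have := hα (fun i _ => ⟨(hbox i).1, (hbox i).2⟩)
  simpa only [div_pow] using this

/-- monotonicity in the error -/
lemma mono_all {ι : Type} [Fintype ι] (a c : ι → ℝ) (δ δ' : ℝ) (h : δ ≤ δ')
    (hx : ∀ᶠ τ : ℝ in atTop, ∃ x : ι → ℕ, (∀ i, 0 < x i) ∧ |GG a c x - τ| < τ ^ (-δ')) :
    ∀ᶠ τ : ℝ in atTop, ∃ x : ι → ℕ, (∀ i, 0 < x i) ∧ |GG a c x - τ| < τ ^ (-δ) := by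
  filter_upwards [hx, eventually_ge_atTop 1] with τ h1 h2
  obtain ⟨x, h3, h4⟩ := h1
  exact ⟨x, h3, h4.trans_le (Real.rpow_le_rpow_of_exponent_le h2 (by linarith))⟩

lemma mono_almost {ι : Type} [Fintype ι] (a c : ι → ℝ) (δ δ' : ℝ) (h : δ ≤ δ')
    (hx : ∃ σ : ℝ, 0 < σ ∧ ∀ᶠ N : ℕ in atTop,
      volume {τ : ℝ | 1 ≤ τ ∧ τ ≤ N ∧ ∀ x : ι → ℕ, (∀ i, 0 < x i) → τ ^ (-δ') ≤ |GG a c x - τ|} ≤
        ENNReal.ofReal ((N : ℝ) ^ (1 - σ))) :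
    ∃ σ : ℝ, 0 < σ ∧ ∀ᶠ N : ℕ in atTop,
      volume {τ : ℝ | 1 ≤ τ ∧ τ ≤ N ∧ ∀ x : ι → ℕ, (∀ i, 0 < x i) → τ ^ (-δ) ≤ |GG a c x - τ|} ≤
        ENNReal.ofReal ((N : ℝ) ^ (1 - σ)) := by
  obtain ⟨σ, h1, h2⟩ := hx
  refine ⟨σ, h1, ?_⟩
  filter_upwards [h2] with N hN
  refine le_trans (measure_mono ?_) hN
  rintro τ ⟨g1, g2, g3⟩
  exact ⟨g1, g2, fun x hx => (Real.rpow_le_rpow_of_exponent_le g1 (by linarith)).trans (g3 x hx)⟩

/-- generic coefficients, both theorems -/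
theorem coef_both (hD : S_DET2) (ι : Type) [Fintype ι] (c : ι → ℝ) (hc : ∀ i, 1 ≤ c i) :
    ∀ᵐ α : ι → ℝ, (∀ i, 0 < α i) →
      (∀ δ : ℝ, 0 ≤ δ → 2 + 2 * δ < ∑ i, 1 / c i → ∀ᶠ τ : ℝ in atTop,
        ∃ x : ι → ℕ, (∀ i, 0 < x i) ∧ |GG α c x - τ| < τ ^ (-δ)) ∧
      (∀ δ : ℝ, 0 ≤ δ → 1 + δ < ∑ i, 1 / c i → ∃ σ : ℝ, 0 < σ ∧ ∀ᶠ N : ℕ in atTop,
        volume {τ : ℝ | 1 ≤ τ ∧ τ ≤ N ∧ ∀ x : ι → ℕ, (∀ i, 0 < x i) → τ ^ (-δ) ≤ |GG α c x - τ|} ≤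
          ENNReal.ofReal ((N : ℝ) ^ (1 - σ))) := by
  classical
  rcases isEmpty_or_nonempty ι with hemp | ⟨⟨i₀⟩⟩
  · refine Filter.Eventually.of_forall fun α _ => ⟨fun δ h1 h2 => ?_, fun δ h1 h2 => ?_⟩
    · simp at h2; linarith
    · simp at h2; linarith
  have h1 : ∀ᵐ α : ι → ℝ, ∀ (q : ℚ) (m : ℕ), 0 ≤ (q : ℝ) → 2 + 2 * (q : ℝ) < ∑ i, 1 / c i →
      (∀ i, 1 / ((m : ℝ) + 1) ≤ α i ∧ α i ≤ (m : ℝ) + 1) →
      ∀ᶠ τ : ℝ in atTop, ∃ x : ι → ℕ, (∀ i, 0 < x i) ∧ |GG α c x - τ| < τ ^ (-(q : ℝ)) := by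
    rw [ae_all_iff]; intro q
    rw [ae_all_iff]; intro m
    by_cases hq : 0 ≤ (q : ℝ) ∧ 2 + 2 * (q : ℝ) < ∑ i, 1 / c i
    · filter_upwards [box Pool.Agent.L7h22.GC.s_PRB Pool.Agent.L7h22.GC.s_MSA i₀ c hc q hq.1 hq.2
        ((m : ℝ) + 1) (by have : (0 : ℝ) ≤ m := Nat.cast_nonneg m
                          linarith)] with α hα _ _
      exact hα
    · exact Filter.Eventually.of_forall fun α a b => absurd ⟨a, b⟩ hq
  have h2 : ∀ᵐ α : ι → ℝ, ∀ (q : ℚ) (m : ℕ), 0 ≤ (q : ℝ) → 1 + (q : ℝ) < ∑ i, 1 / c i →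
      (∀ i, 1 / ((m : ℝ) + 1) ≤ α i ∧ α i ≤ (m : ℝ) + 1) → ∃ σ : ℝ, 0 < σ ∧ ∀ᶠ N : ℕ in atTop,
      volume {τ : ℝ | 1 ≤ τ ∧ τ ≤ N ∧ ∀ x : ι → ℕ, (∀ i, 0 < x i) → τ ^ (-(q : ℝ)) ≤ |GG α c x - τ|} ≤
        ENNReal.ofReal ((N : ℝ) ^ (1 - σ)) := by
    rw [ae_all_iff]; intro q
    rw [ae_all_iff]; intro m
    by_cases hq : 0 ≤ (q : ℝ) ∧ 1 + (q : ℝ) < ∑ i, 1 / c i
    · filter_upwards [boxC hD i₀ c hc q hq.1 hq.2
        ((m : ℝ) + 1) (by have : (0 : ℝ) ≤ m := Nat.cast_nonneg m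
                          linarith)] with α hα _ _
      exact hα
    · exact Filter.Eventually.of_forall fun α a b => absurd ⟨a, b⟩ hq
  filter_upwards [h1, h2] with α hα1 hα2 hpos
  obtain ⟨m, hm⟩ := exists_nat_ge (∑ i, (α i + 1 / α i))
  have hbox : ∀ i, 1 / ((m : ℝ) + 1) ≤ α i ∧ α i ≤ (m : ℝ) + 1 := by
    intro i
    have h2 : α i + 1 / α i ≤ m := by
      refine le_trans ?_ hm
      exact Finset.single_le_sum (f := fun i => α i + 1 / α i)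
        (fun j _ => by have := hpos j; positivity) (mem_univ i)
    have h3 := hpos i
    have h4 : 0 < 1 / α i := by positivity
    constructor
    · rw [div_le_iff₀ (by positivity)]
      have h5 : 1 / α i ≤ m + 1 := by linarith
      rw [div_le_iff₀ h3] at h5
      linarith
    · linarith
  constructor
  · intro δ hδ hs
    obtain ⟨q, hq1, hq2⟩ := exists_rat_btwn (show δ < (∑ i, 1 / c i - 2) / 2 by linarith)
    exact mono_all α c δ q hq1.le (hα1 q m (by linarith) (by linarith) hbox)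
  · intro δ hδ hs
    obtain ⟨q, hq1, hq2⟩ := exists_rat_btwn (show δ < ∑ i, 1 / c i - 1 by linarith)
    exact mono_almost α c δ q hq1.le (hα2 q m (by linarith) (by linarith) hbox)

end Pool.Agent.L7h70.GC
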