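import Pool.Agent.L7h70.GC.Bas

/-! Every large target. -/

set_option autoImplicit false

namespace Pool.Agent.L7h70.GC

open Finset MeasureTheory Filter
open Pool.Agent.L7h43.MW (ee)

/-- the product of the sums, normalised -/
lemma prod_norm {ι : Type} [Fintype ι] (a A c : ι → ℝ) (l : ℕ) (ξ : ℝ)
    (hn : ∀ i, 0 < nn A c l i) :
    ENNReal.ofReal (∏ i, ‖SS (nn A c l i) (a i) (c i) ξ‖) =
      ENNReal.ofReal (∏ i, nn A c l i) *
        ∏ i, ENNReal.ofReal (‖SS (nn A c l i) (a i) (c i) ξ‖ / nn A c l i) := by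
  rw [← ENNReal.ofReal_prod_of_nonneg (fun i _ => by have := hn i; positivity), ← ENNReal.ofReal_mul
    (Finset.prod_nonneg fun i _ => (hn i).le), ← Finset.prod_mul_distrib]
  congr 1
  refine Finset.prod_congr rfl fun i _ => ?_
  have := (hn i).ne'
  field_simp

/-- the scales: for every large `τ` there is a level `l ≥ L` -/
lemma level (lo hi : ℝ) (hlo : 0 < lo) (hhi : 2 * lo ≤ hi) (L : ℕ) : ∀ᶠ τ : ℝ in atTop,
    ∃ l : ℕ, L ≤ l ∧ lo * 2 ^ l ≤ τ ∧ τ ≤ hi * 2 ^ l := by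
  filter_upwards [eventually_ge_atTop (lo * 2 ^ L)] with τ hτ
  have h1 : 1 ≤ τ / (lo * 2 ^ L) := by rw [le_div_iff₀ (by positivity)]; linarith
  obtain ⟨k, hk1, hk2⟩ := exists_nat_pow_near h1 (show (1 : ℝ) < 2 by norm_num)
  rw [le_div_iff₀ (by positivity)] at hk1
  rw [div_lt_iff₀ (by positivity)] at hk2
  refine ⟨L + k, by omega, ?_, ?_⟩
  · rw [pow_add]; nlinarith
  · have h3 : τ ≤ 2 * lo * (2 ^ L * 2 ^ k) := by
      rw [pow_succ] at hk2; nlinarith
    rw [pow_add]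
    exact h3.trans (by gcongr)

lemma two_mul_lo {c : ℝ} (hc : 1 ≤ c) : 2 * (3 / 2 : ℝ) ^ c ≤ (3 : ℝ) ^ c := by
  have h1 : (2 : ℝ) ≤ (2 : ℝ) ^ c := by
    calc (2 : ℝ) = (2 : ℝ) ^ (1 : ℝ) := (Real.rpow_one _).symm
      _ ≤ (2 : ℝ) ^ c := Real.rpow_le_rpow_of_exponent_le (by norm_num) hc
  calc 2 * (3 / 2 : ℝ) ^ c ≤ (2 : ℝ) ^ c * (3 / 2 : ℝ) ^ c := by gcongr
    _ = (2 * (3 / 2) : ℝ) ^ c := (Real.mul_rpow (by norm_num) (by norm_num)).symm
    _ = (3 : ℝ) ^ c := by norm_num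

theorem s_DET (hC : S_COARSE) : S_DET := by
  intro ι _ _ i₀ a A c hD δ δ1 κ η hδ hδ1 hκ hκc hη hI
  have hpi := Real.pi_pos
  obtain ⟨ha, hA, hc, hdom⟩ := hD
  have hc0 := hc i₀
  have hc0p : 0 < c i₀ := by linarith
  have hκ2 : 2 * κ < 1 / c i₀ := by
    rw [lt_div_iff₀ (by positivity)] at hκc ⊢
    linarith
  have hκ1 : 2 * κ < 1 := lt_of_lt_of_le hκ2 (by rw [div_le_one hc0p]; exact hc0)
  obtain ⟨b, hb, hco⟩ := hC ι i₀ a A c ⟨ha, hA, hc, hdom⟩ (2 * κ) (by linarith) hκ2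
  set s : ℕ := Fintype.card ι with hs
  set K : ℝ := 4 ^ s with hK
  have hKp : 0 < K := by positivity
  set δa : ℝ := δ + (δ1 - δ) / 3 with hδa
  set δ' : ℝ := δ + 2 * (δ1 - δ) / 3 with hδ'
  have e1 : δ < δa := by rw [hδa]; linarith
  have e2 : δa < δ' := by rw [hδa, hδ']; linarith
  have e3 : δ' < δ1 := by rw [hδ']; linarith
  set lo : ℝ := a i₀ * A i₀ ^ c i₀ * (3 / 2 : ℝ) ^ c i₀ with hlo
  set hi : ℝ := a i₀ * A i₀ ^ c i₀ * (3 : ℝ) ^ c i₀ with hhi
  have ha0 := ha i₀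
  have hA0 : 0 < A i₀ := by linarith [hA i₀]
  have hlop : 0 < lo := by rw [hlo]; positivity
  have hhip : 0 < hi := by rw [hhi]; positivity
  have hlohi : 2 * lo ≤ hi := by
    rw [hlo, hhi]
    have := two_mul_lo hc0
    calc 2 * (a i₀ * A i₀ ^ c i₀ * (3 / 2 : ℝ) ^ c i₀) = a i₀ * A i₀ ^ c i₀ * (2 * (3 / 2 : ℝ) ^ c i₀) := by ring
      _ ≤ _ := by gcongr
  -- the properties of a large scale
  have hlarge : ∀ᶠ l : ℕ in atTop,
      (∀ τ : ℝ, lo * 2 ^ l ≤ τ → τ ≤ hi * 2 ^ l → ∃ x ∈ BX A c l, |GG a c x - τ| < τ ^ (-δ)) := by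
    have t1 := tend2.eventually (large (-1 - κ) (-1) (2 * (Real.pi * K) * (8 / b)) (by linarith))
    have t2 := tend2.eventually (large (-1 - η) (-1) (2 * (8 / b)) (by linarith))
    have t3 := tend2.eventually (tiny (δ1 - δ') (4 * K * (8 / b)) (δ' + 1) (by linarith) (Real.pi / 2)
      (by positivity))
    have t4 := tend2.eventually (tiny (δ' - δa) (K * (8 / b)) (δ' + 1) (by linarith) Real.pi hpi)
    have t5 := tend2.eventually (large (-δa) (-δ) (hi ^ δ) (by linarith))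
    filter_upwards [hI, hco, t1, t2, t3, t4, t5] with l g1 g2 g3 g4 g5 g6 g7 τ hτ1 hτ2
    set H : ℝ := (2 : ℝ) ^ l with hH
    have hH1 : 1 ≤ H := one_le_pow₀ (by norm_num)
    have hH0 : 0 < H := by linarith
    set Q : ℝ := ∏ i, nn A c l i with hQQ
    have hnn : ∀ i, 1 ≤ nn A c l i := fun i => nn_ge (hA i) (hc i)
    have hQQp : 0 < Q := Finset.prod_pos fun i _ => by linarith [hnn i]
    have g2' := g2 τ hτ1 hτ2
    have hIB : ∫⁻ ξ in Set.Ioc (H ^ (-1 + κ)) (H ^ δ1),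
        ENNReal.ofReal ‖∑ v ∈ BX A c l, ee (ξ * (GG a c v - τ))‖ ≤ ENNReal.ofReal (Q * H ^ (-1 - η)) := by
      simp_rw [sum_BX, prod_norm a A c l _ (fun i => by linarith [hnn i])]
      rw [lintegral_const_mul' _ _ ENNReal.ofReal_ne_top, ENNReal.ofReal_mul hQQp.le]
      gcongr
    obtain ⟨v, hv, hvu⟩ := core_exists (BX A c l) (fun v => GG a c v - τ) (H ^ δ') (H ^ (-1 + 2 * κ))
      (H ^ (-1 + κ)) (H ^ δ1) (Q * H ^ (-1 - η)) (K * Q) (b * Q / H) (H ^ (-δa))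
      (by positivity) (Real.rpow_le_rpow_of_exponent_le hH1 (by linarith)) (by positivity)
      (Real.rpow_le_rpow_of_exponent_le hH1 (by linarith)) (card_BX hA hc) (by positivity)
      (by positivity) hIB (by
        refine g2'.trans (le_of_eq ?_)
        refine Finset.sum_congr rfl fun x _ => ?_
        rfl) (by
        have E1 : Real.pi * (H ^ (-1 + κ)) ^ 2 / (H ^ (-1 + 2 * κ)) ^ 2 * (K * Q) * H ^ (-1 + κ) =
            Real.pi * K * Q * H ^ (-1 - κ) := by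
          have : (H ^ (-1 + κ)) ^ 2 / (H ^ (-1 + 2 * κ)) ^ 2 * H ^ (-1 + κ) = H ^ (-1 - κ) := by
            rw [← Real.rpow_natCast, ← Real.rpow_natCast, ← Real.rpow_mul hH0.le, ← Real.rpow_mul hH0.le,
              ← Real.rpow_sub hH0, ← Real.rpow_add hH0]
            congr 1
            push_cast
            ring
          rw [← this]; ring
        have E2 : (H ^ δ1 / H ^ δ') ^ 2 = (H ^ (δ1 - δ')) ^ 2 := by rw [Real.rpow_sub hH0]
        have E3 : (H ^ δ' * H ^ (-δa)) ^ 2 = (H ^ (δ' - δa)) ^ 2 := by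
          rw [← Real.rpow_add hH0]; congr 2
        rw [E1, E2, E3]
        have hHi : H ^ (-1 : ℝ) = 1 / H := by rw [Real.rpow_neg_one]; simp
        rw [hHi] at g3 g4
        have hHd : H ^ (δ' + 1) = H ^ δ' * H := by rw [Real.rpow_add hH0, Real.rpow_one]
        rw [hHd] at g5 g6
        have f3 : 2 * (Real.pi * K * Q * H ^ (-1 - κ)) ≤ b / 8 * (Q / H) := by
          calc 2 * (Real.pi * K * Q * H ^ (-1 - κ)) =
              (2 * (Real.pi * K) * (8 / b) * H ^ (-1 - κ)) * (b / 8 * Q) := by field_simp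
            _ ≤ (1 / H) * (b / 8 * Q) := by gcongr
            _ = _ := by ring
        have f4 : 2 * (Q * H ^ (-1 - η)) ≤ b / 8 * (Q / H) := by
          calc 2 * (Q * H ^ (-1 - η)) = (2 * (8 / b) * H ^ (-1 - η)) * (b / 8 * Q) := by field_simp
            _ ≤ (1 / H) * (b / 8 * Q) := by gcongr
            _ = _ := by ring
        have f5 : 2 * (K * Q * (2 * H ^ δ' * Real.exp (-(Real.pi / 2 * (H ^ (δ1 - δ')) ^ 2)))) ≤
            b / 8 * (Q / H) := by
          calc 2 * (K * Q * (2 * H ^ δ' * Real.exp (-(Real.pi / 2 * (H ^ (δ1 - δ')) ^ 2)))) =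
              (4 * K * (8 / b) * (H ^ δ' * H) * Real.exp (-(Real.pi / 2 * (H ^ (δ1 - δ')) ^ 2))) *
                (b / 8 * (Q / H)) := by field_simp; ring
            _ ≤ 1 * (b / 8 * (Q / H)) := by gcongr
            _ = _ := one_mul _
        have f6 : K * Q * (H ^ δ' * Real.exp (-(Real.pi * (H ^ (δ' - δa)) ^ 2))) ≤ b / 8 * (Q / H) := by
          calc K * Q * (H ^ δ' * Real.exp (-(Real.pi * (H ^ (δ' - δa)) ^ 2))) =
              (K * (8 / b) * (H ^ δ' * H) * Real.exp (-(Real.pi * (H ^ (δ' - δa)) ^ 2))) *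
                (b / 8 * (Q / H)) := by field_simp
            _ ≤ 1 * (b / 8 * (Q / H)) := by gcongr
            _ = _ := one_mul _
        have hpos : 0 < b * (Q / H) := by positivity
        have : b * Q / H = b * (Q / H) := by ring
        rw [this]
        linarith)
    refine ⟨v, hv, hvu.trans_le ?_⟩
    have hτ0 : 0 < τ := lt_of_lt_of_le (by positivity) hτ1
    calc H ^ (-δa) = (hi ^ δ * H ^ (-δa)) * hi ^ (-δ) := by
          rw [Real.rpow_neg hhip.le]; field_simp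
      _ ≤ H ^ (-δ) * hi ^ (-δ) := by gcongr
      _ = (hi * H) ^ (-δ) := by rw [mul_comm, ← Real.mul_rpow hhip.le hH0.le]
      _ ≤ τ ^ (-δ) := Real.rpow_le_rpow_of_nonpos hτ0 hτ2 (by linarith)
  obtain ⟨L, hL⟩ := eventually_atTop.1 hlarge
  filter_upwards [level lo hi hlop hlohi L] with τ hτ
  obtain ⟨l, hl, h1, h2⟩ := hτ
  obtain ⟨x, hx, hx2⟩ := hL l hl τ h1 h2
  refine ⟨x, fun i => ?_, hx2⟩
  unfold BX at hx
  rw [Fintype.mem_piFinset] at hx
  have h3 := (mem_XX (by linarith [nn_ge (l := l) (hA i) (hc i)])).1 (hx i)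
  have h4 : (0 : ℝ) < x i := lt_trans (by linarith [nn_ge (l := l) (hA i) (hc i)]) h3.1
  exact_mod_cast h4

end Pool.Agent.L7h70.GC
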