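import Pool.Agent.L7h70.GC.Coef
import Pool.Agent.L7h22.GC.Mse

/-! Generic exponents. -/

set_option autoImplicit false

namespace Pool.Agent.L7h70.GC

open Finset MeasureTheory Filter
open Pool.Agent.L7h43.MW (ee continuous_ee)

/-- joint measurability -/
lemma meas_SS (n : ℝ → ℝ) (hn : Measurable n) (a : ℝ) :
    Measurable fun p : ℝ × ℝ => SS (n p.1) a p.1 p.2 := by
  have h1 : Measurable fun z : (ℝ × ℝ) × (ℕ × ℕ) =>
      ∑ x ∈ Ioc z.2.1 z.2.2, ee (z.1.2 * (a * (x : ℝ) ^ z.1.1)) := by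
    apply measurable_from_prod_countable_left
    rintro ⟨N, M⟩
    show Measurable fun z : ℝ × ℝ => ∑ x ∈ Ioc N M, ee (z.2 * (a * (x : ℝ) ^ z.1))
    refine Finset.measurable_fun_sum _ fun x _ => ?_
    exact continuous_ee.measurable.comp
      (measurable_snd.mul ((measurable_const.pow measurable_fst).const_mul a))
  have h2 : Measurable fun p : ℝ × ℝ => (p, ((⌊n p.1⌋₊, ⌊4 * n p.1⌋₊) : ℕ × ℕ)) := by
    refine measurable_id.prodMk (Measurable.prodMk ?_ ?_)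
    · exact (hn.comp measurable_fst).nat_floor
    · exact ((hn.comp measurable_fst).const_mul 4).nat_floor
  exact h1.comp h2

/-- the second moment of one sum, normalised -/
lemma momE (p q a A δ ρ : ℝ) (hp : 1 < p) (hpq : p ≤ q) (ha : 0 < a) (hA : 3 ≤ A) (hδ : 0 ≤ δ)
    (hρ : 1 / p - 1 / q ≤ ρ) :
    ∃ K : ℝ, 0 ≤ K ∧ ∀ H : ℝ, 1 ≤ H → ∀ ξ : ℝ, 1 / H ≤ ξ → ξ ≤ H ^ δ →
      ∫⁻ ω in Set.Icc p q, ENNReal.ofReal ((‖SS (A * H ^ (1 / ω)) a ω ξ‖ / (A * H ^ (1 / ω))) ^ 2) ≤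
        ENNReal.ofReal (K * (1 + Real.log H) * (H ^ ρ * (ξ * H) ^ (-(1 / (2 * (q * (1 + δ)))))) ^ 2) := by
  obtain ⟨K, hK, h⟩ := Pool.Agent.L7h22.GC.s_MSE p q a A δ hp hpq ha hA hδ
  refine ⟨K, hK.le, fun H hH ξ h1 h2 => ?_⟩
  have hH0 : 0 < H := by linarith
  have hξ0 : 0 < ξ := lt_of_lt_of_le (by positivity) h1
  have hlog : 0 ≤ Real.log H := Real.log_nonneg hH
  have h3 := h H hH ξ h1 h2
  simp only [← div_pow] at h3
  refine h3.trans (ENNReal.ofReal_le_ofReal ?_)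
  have e1 : (H ^ ρ * (ξ * H) ^ (-(1 / (2 * (q * (1 + δ)))))) ^ 2 =
      H ^ (2 * ρ) * (ξ * H) ^ (-(1 / (q * (1 + δ)))) := by
    rw [mul_pow, sq_rpow hH0, sq_rpow (by positivity)]
    congr 2
    have : q ≠ 0 := by linarith
    have : (1 + δ) ≠ 0 := by linarith
    field_simp
  rw [e1, ← mul_assoc]
  have e2 : H ^ (2 * (1 / p - 1 / q)) ≤ H ^ (2 * ρ) :=
    Real.rpow_le_rpow_of_exponent_le hH (by linarith)
  gcongr

/-- the sizes -/
lemma domE {ι : Type} [Fintype ι] [DecidableEq ι] (i₀ : ι) (a p q : ι → ℝ) (ha : ∀ i, 0 < a i)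
    (hp : ∀ i, 1 < p i) : ∃ A : ι → ℝ, (∀ i, 3 ≤ A i) ∧
      ∀ ω : ι → ℝ, (∀ i, p i ≤ ω i ∧ ω i ≤ q i) → Dom i₀ a A ω := by
  have ha0 := ha i₀
  set B : ℝ := 4 * (∑ i, a i * (12 : ℝ) ^ q i) / a i₀ + 3 with hB
  have hS0 : 0 ≤ ∑ i, a i * (12 : ℝ) ^ q i :=
    Finset.sum_nonneg fun i _ => by have := ha i; positivity
  have hB3 : 3 ≤ B := by
    have : 0 ≤ 4 * (∑ i, a i * (12 : ℝ) ^ q i) / a i₀ := by positivity
    linarith
  set A : ι → ℝ := fun i => if i = i₀ then B else 3 with hA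
  have hA3 : ∀ i, 3 ≤ A i := by
    intro i; rw [hA]; dsimp only; split_ifs
    · exact hB3
    · exact le_rfl
  refine ⟨A, hA3, fun ω hω => ⟨ha, fun i => by linarith [hA3 i],
    fun i => by linarith [(hω i).1, hp i], ?_⟩⟩
  have h1 : ∑ i ∈ univ.erase i₀, a i * (4 * A i) ^ ω i ≤ ∑ i, a i * (12 : ℝ) ^ q i := by
    calc ∑ i ∈ univ.erase i₀, a i * (4 * A i) ^ ω i ≤ ∑ i ∈ univ.erase i₀, a i * (12 : ℝ) ^ q i := by
          refine Finset.sum_le_sum fun i hi => ?_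
          have : A i = 3 := by rw [hA]; simp [Finset.ne_of_mem_erase hi]
          rw [this]
          have h3 : ((4 : ℝ) * 3) ^ ω i ≤ (12 : ℝ) ^ q i := by
            rw [show (4 : ℝ) * 3 = 12 by norm_num]
            exact Real.rpow_le_rpow_of_exponent_le (by norm_num) (hω i).2
          exact mul_le_mul_of_nonneg_left h3 (ha i).le
      _ ≤ ∑ i, a i * (12 : ℝ) ^ q i :=
          Finset.sum_le_sum_of_subset_of_nonneg (erase_subset _ _)
            fun i _ _ => by have := ha i; positivity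
  have h2 : A i₀ = B := by rw [hA]; simp
  have hω1 : 1 ≤ ω i₀ := by linarith [(hω i₀).1, hp i₀]
  have h3 : B ≤ B ^ ω i₀ := by
    calc B = B ^ (1 : ℝ) := (Real.rpow_one _).symm
      _ ≤ _ := Real.rpow_le_rpow_of_exponent_le (by linarith) hω1
  have h4 := quarter_le hω1
  have h5 : a i₀ * B * (1 / 4) ≤ a i₀ * A i₀ ^ ω i₀ * ((3 / 2 : ℝ) ^ ω i₀ - (5 / 4 : ℝ) ^ ω i₀) := by
    rw [h2]
    have hBp : 0 ≤ B := by linarith
    exact mul_le_mul (mul_le_mul_of_nonneg_left h3 ha0.le) h4 (by norm_num)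
      (mul_nonneg ha0.le (hBp.trans h3))
  refine h1.trans (le_trans ?_ h5)
  have h6 : a i₀ * B * (1 / 4) = ∑ i, a i * (12 : ℝ) ^ q i + a i₀ * 3 / 4 := by
    rw [hB]; field_simp
  rw [h6]
  linarith

/-- the parameters -/
lemma paramsE (n : ℕ) (g ρ : ℝ) (hg : 0 < g) (hρ : ρ * (n + 1) < g) :
    ∃ ε η : ℝ, ρ < ε ∧ 0 < η ∧ n * ε + η < g := by
  refine ⟨g / (n + 1), g / (2 * (n + 1)), ?_, by positivity, ?_⟩
  · rw [lt_div_iff₀ (by positivity)]; exact hρ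
  · have h1 : g = n * (g / (n + 1)) + g / (n + 1) := by field_simp
    have h2 : g / (2 * (n + 1)) < g / (n + 1) := by
      apply div_lt_div_of_pos_left hg (by positivity)
      have : (0 : ℝ) ≤ n := Nat.cast_nonneg n
      linarith
    linarith

/-- the exponent of the gain, first moments -/
noncomputable def g1 {ι : Type} [Fintype ι] (i₀ : ι) (q : ι → ℝ) (δ : ℝ) : ℝ :=
  1 / (4 * q i₀) * (∑ i, 1 / (2 * (q i * (1 + δ))) - 1)

/-- the exponent of the gain, second moments -/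
noncomputable def g2 {ι : Type} [Fintype ι] (i₀ : ι) (q : ι → ℝ) (δ : ℝ) : ℝ :=
  1 / (4 * q i₀) * (∑ i, 2 * (1 / (2 * (q i * (1 + δ)))) - 1)

lemma meas_g (A a : ℝ) (l : ℕ) : Measurable fun p : ℝ × ℝ =>
    ‖SS (A * ((2 : ℝ) ^ l) ^ (1 / p.1)) a p.1 p.2‖ / (A * ((2 : ℝ) ^ l) ^ (1 / p.1)) := by
  have hn : Measurable fun ω : ℝ => A * ((2 : ℝ) ^ l) ^ (1 / ω) :=
    (measurable_const.pow (measurable_const.div measurable_id)).const_mul A
  exact (meas_SS _ hn a).norm.div (hn.comp measurable_fst)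

/-- one box of exponents, every large target -/
lemma boxE1 {ι : Type} [Fintype ι] [DecidableEq ι] (i₀ : ι) (a p q : ι → ℝ) (ha : ∀ i, 0 < a i)
    (hp : ∀ i, 1 < p i) (hpq : ∀ i, p i ≤ q i) (δ δ1 ρ : ℝ) (hδ : 0 ≤ δ) (hδ1 : δ < δ1)
    (hρ : ∀ i, 1 / p i - 1 / q i ≤ ρ) (hρ0 : 0 ≤ ρ)
    (hs : ρ * (Fintype.card ι + 1) < g1 i₀ q δ1) :
    ∀ᵐ ω : ι → ℝ, (∀ i, p i ≤ ω i ∧ ω i ≤ q i) → ∀ᶠ τ : ℝ in atTop,
      ∃ x : ι → ℕ, (∀ i, 0 < x i) ∧ |GG a ω x - τ| < τ ^ (-δ) := by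
  have hg0 : 0 < g1 i₀ q δ1 := lt_of_le_of_lt (by positivity) hs
  obtain ⟨ε, η, hε, hη, hεη⟩ := paramsE (Fintype.card ι) (g1 i₀ q δ1) ρ hg0 hs
  obtain ⟨A, hA3, hdom⟩ := domE i₀ a p q ha hp
  have hq0 : ∀ i, 1 < q i := fun i => lt_of_lt_of_le (hp i) (hpq i)
  have hq00 := hq0 i₀
  set κ : ℝ := 1 / (4 * q i₀) with hκ
  have hκp : 0 < κ := by
    have : 0 < q i₀ := by linarith
    positivity
  choose K hK0 hK using fun i => momE (p i) (q i) (a i) (A i) δ1 ρ (hp i) (hpq i) (ha i) (hA3 i)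
    (by linarith) (hρ i)
  have hprb := gen1 Pool.Agent.L7h22.GC.s_PRB ι (fun i => volume.restrict (Set.Icc (p i) (q i)))
    (fun l i ω ξ => ‖SS (A i * ((2 : ℝ) ^ l) ^ (1 / ω)) (a i) ω ξ‖ / (A i * ((2 : ℝ) ^ l) ^ (1 / ω)))
    (fun l i ω ξ => div_nonneg (norm_nonneg _) (mul_nonneg (by linarith [hA3 i]) (by positivity)))
    (fun l i => meas_g (A i) (a i) l)
    (fun i => 1 / (2 * (q i * (1 + δ1)))) κ δ1 η ε ρ K hκp hρ0 hε hK0 hη.le hεη
    (by
      refine Filter.Eventually.of_forall fun l i ξ h1 h2 => ?_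
      have hH1 : (1 : ℝ) ≤ (2 : ℝ) ^ l := one_le_pow₀ (by norm_num)
      refine hK i _ hH1 ξ (le_trans ?_ h1) h2
      rw [one_div, ← Real.rpow_neg_one]
      exact Real.rpow_le_rpow_of_exponent_le hH1 (by linarith))
  have hpi : Measure.pi (fun i : ι => (volume : Measure ℝ).restrict (Set.Icc (p i) (q i))) =
      (volume : Measure (ι → ℝ)).restrict (Set.pi Set.univ fun i : ι => Set.Icc (p i) (q i)) := by
    rw [volume_pi, Measure.restrict_pi_pi]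
  rw [hpi, ae_restrict_iff' (MeasurableSet.univ_pi fun _ => measurableSet_Icc)] at hprb
  filter_upwards [hprb] with ω hω hbox
  refine s_DET s_COARSE ι i₀ a A ω (hdom ω hbox) δ δ1 κ η hδ hδ1 hκp ?_ hη
    (hω (fun i _ => ⟨(hbox i).1, (hbox i).2⟩))
  have h1 := hbox i₀
  have h2 := hp i₀
  rw [hκ]
  apply one_div_lt_one_div_of_lt <;> nlinarith

/-- one box of exponents, almost all targets -/
lemma boxE2 (hD : S_DET2) {ι : Type} [Fintype ι] [DecidableEq ι] (i₀ : ι) (a p q : ι → ℝ)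
    (ha : ∀ i, 0 < a i)
    (hp : ∀ i, 1 < p i) (hpq : ∀ i, p i ≤ q i) (δ δ1 ρ : ℝ) (hδ : 0 ≤ δ) (hδ1 : δ < δ1)
    (hρ : ∀ i, 1 / p i - 1 / q i ≤ ρ) (hρ0 : 0 ≤ ρ)
    (hs : 2 * ρ * (Fintype.card ι + 1) < g2 i₀ q δ1) :
    ∀ᵐ ω : ι → ℝ, (∀ i, p i ≤ ω i ∧ ω i ≤ q i) → ∃ σ : ℝ, 0 < σ ∧ ∀ᶠ N : ℕ in atTop,
      volume {τ : ℝ | 1 ≤ τ ∧ τ ≤ N ∧ ∀ x : ι → ℕ, (∀ i, 0 < x i) → τ ^ (-δ) ≤ |GG a ω x - τ|} ≤
        ENNReal.ofReal ((N : ℝ) ^ (1 - σ)) := by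
  have hg0 : 0 < g2 i₀ q δ1 := lt_of_le_of_lt (by positivity) hs
  obtain ⟨ε, η, hε, hη, hεη⟩ := paramsE (Fintype.card ι) (g2 i₀ q δ1) (2 * ρ) hg0 hs
  obtain ⟨A, hA3, hdom⟩ := domE i₀ a p q ha hp
  have hq0 : ∀ i, 1 < q i := fun i => lt_of_lt_of_le (hp i) (hpq i)
  have hq00 := hq0 i₀
  set κ : ℝ := 1 / (4 * q i₀) with hκ
  have hκp : 0 < κ := by
    have : 0 < q i₀ := by linarith
    positivity
  choose K hK0 hK using fun i => momE (p i) (q i) (a i) (A i) δ1 ρ (hp i) (hpq i) (ha i) (hA3 i)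
    (by linarith) (hρ i)
  have hprb := gen2 Pool.Agent.L7h22.GC.s_PRB ι (fun i => volume.restrict (Set.Icc (p i) (q i)))
    (fun l i ω ξ => ‖SS (A i * ((2 : ℝ) ^ l) ^ (1 / ω)) (a i) ω ξ‖ / (A i * ((2 : ℝ) ^ l) ^ (1 / ω)))
    (fun l i => meas_g (A i) (a i) l)
    (fun i => 1 / (2 * (q i * (1 + δ1)))) κ δ1 η ε ρ K hκp hρ0 hε hK0 hη.le hεη
    (by
      refine Filter.Eventually.of_forall fun l i ξ h1 h2 => ?_
      have hH1 : (1 : ℝ) ≤ (2 : ℝ) ^ l := one_le_pow₀ (by norm_num)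
      refine hK i _ hH1 ξ (le_trans ?_ h1) h2
      rw [one_div, ← Real.rpow_neg_one]
      exact Real.rpow_le_rpow_of_exponent_le hH1 (by linarith))
  have hpi : Measure.pi (fun i : ι => (volume : Measure ℝ).restrict (Set.Icc (p i) (q i))) =
      (volume : Measure (ι → ℝ)).restrict (Set.pi Set.univ fun i : ι => Set.Icc (p i) (q i)) := by
    rw [volume_pi, Measure.restrict_pi_pi]
  rw [hpi, ae_restrict_iff' (MeasurableSet.univ_pi fun _ => measurableSet_Icc)] at hprb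
  filter_upwards [hprb] with ω hω hbox
  refine hD ι i₀ a A ω (hdom ω hbox) δ δ1 κ η hδ hδ1 hκp ?_ hη ?_
  · have h1 := hbox i₀
    have h2 := hp i₀
    rw [hκ]
    apply one_div_lt_one_div_of_lt <;> nlinarith
  · have := hω (fun i _ => ⟨(hbox i).1, (hbox i).2⟩)
    simp only [div_pow] at this
    exact this

/-- a rational box around a point -/
lemma rat_box {ι : Type} [Fintype ι] (c : ι → ℝ) (hc : ∀ i, 1 < c i) (F : (ι → ℝ) → (ι → ℝ) → ℝ)
    (hF : ContinuousAt (fun z : (ι → ℝ) × (ι → ℝ) => F z.1 z.2) (c, c)) (h0 : 0 < F c c) :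
    ∃ p q : ι → ℚ, (∀ i, (p i : ℝ) < c i ∧ c i < q i ∧ 1 < (p i : ℝ)) ∧
      0 < F (fun i => p i) (fun i => q i) := by
  have h1 := hF.eventually (lt_mem_nhds h0)
  rw [Metric.eventually_nhds_iff] at h1
  obtain ⟨ε, hε, h2⟩ := h1
  have hp : ∀ i, ∃ r : ℚ, max (c i - ε) 1 < r ∧ (r : ℝ) < c i := fun i =>
    exists_rat_btwn (max_lt (by linarith) (hc i))
  have hq : ∀ i, ∃ r : ℚ, c i < r ∧ (r : ℝ) < c i + ε := fun i => exists_rat_btwn (by linarith)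
  choose p hp1 hp2 using hp
  choose q hq1 hq2 using hq
  refine ⟨p, q, fun i => ⟨hp2 i, hq1 i, (le_max_right _ _).trans_lt (hp1 i)⟩, ?_⟩
  apply h2 (y := ((fun i => (p i : ℝ)), (fun i => (q i : ℝ))))
  rw [Prod.dist_eq, max_lt_iff, dist_pi_lt_iff hε, dist_pi_lt_iff hε]
  refine ⟨fun i => ?_, fun i => ?_⟩
  · rw [Real.dist_eq, abs_lt]
    have := (le_max_left (c i - ε) 1).trans_lt (hp1 i)
    constructor <;> linarith [hp2 i]
  · rw [Real.dist_eq, abs_lt]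
    constructor <;> linarith [hq1 i, hq2 i]

/-- generic exponents, both theorems -/
theorem expo_both (hD : S_DET2) (ι : Type) [Fintype ι] (a : ι → ℝ) (ha : ∀ i, 0 < a i) :
    ∀ᵐ c : ι → ℝ, (∀ i, 1 < c i) →
      (∀ δ : ℝ, 0 ≤ δ → 2 + 2 * δ < ∑ i, 1 / c i → ∀ᶠ τ : ℝ in atTop,
        ∃ x : ι → ℕ, (∀ i, 0 < x i) ∧ |GG a c x - τ| < τ ^ (-δ)) ∧
      (∀ δ : ℝ, 0 ≤ δ → 1 + δ < ∑ i, 1 / c i → ∃ σ : ℝ, 0 < σ ∧ ∀ᶠ N : ℕ in atTop,
        volume {τ : ℝ | 1 ≤ τ ∧ τ ≤ N ∧ ∀ x : ι → ℕ, (∀ i, 0 < x i) → τ ^ (-δ) ≤ |GG a c x - τ|} ≤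
          ENNReal.ofReal ((N : ℝ) ^ (1 - σ))) := by
  classical
  rcases isEmpty_or_nonempty ι with hemp | ⟨⟨i₀⟩⟩
  · refine Filter.Eventually.of_forall fun α _ => ⟨fun δ h1 h2 => ?_, fun δ h1 h2 => ?_⟩
    · simp at h2; linarith
    · simp at h2; linarith
  have h1 : ∀ᵐ c : ι → ℝ, ∀ (δ δ1 : ℚ) (p q : ι → ℚ), 0 ≤ (δ : ℝ) → (δ : ℝ) < δ1 →
      (∀ i, (p i : ℝ) < c i ∧ c i < q i ∧ 1 < (p i : ℝ)) →
      (∑ i, (1 / (p i : ℝ) - 1 / (q i : ℝ))) * (Fintype.card ι + 1) < g1 i₀ (fun i => (q i : ℝ)) δ1 →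
      ∀ᶠ τ : ℝ in atTop, ∃ x : ι → ℕ, (∀ i, 0 < x i) ∧ |GG a c x - τ| < τ ^ (-(δ : ℝ)) := by
    rw [ae_all_iff]; intro δ
    rw [ae_all_iff]; intro δ1
    rw [ae_all_iff]; intro p
    rw [ae_all_iff]; intro q
    by_cases hq : 0 ≤ (δ : ℝ) ∧ (δ : ℝ) < δ1 ∧ (∀ i, (p i : ℝ) ≤ q i ∧ 1 < (p i : ℝ)) ∧
        (∑ i, (1 / (p i : ℝ) - 1 / (q i : ℝ))) * (Fintype.card ι + 1) < g1 i₀ (fun i => (q i : ℝ)) δ1
    · obtain ⟨q1, q2, q3, q4⟩ := hq
      have hnn : ∀ i, 0 ≤ 1 / (p i : ℝ) - 1 / (q i : ℝ) := fun i => by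
        have := q3 i
        rw [sub_nonneg]
        exact one_div_le_one_div_of_le (by linarith [this.2]) this.1
      filter_upwards [boxE1 i₀ a (fun i => p i) (fun i => q i) ha (fun i => (q3 i).2)
        (fun i => (q3 i).1) δ δ1 _ q1 q2
        (fun i => Finset.single_le_sum (f := fun i => 1 / (p i : ℝ) - 1 / (q i : ℝ))
          (fun j _ => hnn j) (mem_univ i)) (Finset.sum_nonneg fun i _ => hnn i) q4] with c hc _ _ h3 _
      exact hc fun i => ⟨(h3 i).1.le, (h3 i).2.1.le⟩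
    · refine Filter.Eventually.of_forall fun c r1 r2 r3 r4 => absurd ⟨r1, r2, ?_, r4⟩ hq
      exact fun i => ⟨((r3 i).1.trans (r3 i).2.1).le, (r3 i).2.2⟩
  have h2 : ∀ᵐ c : ι → ℝ, ∀ (δ δ1 : ℚ) (p q : ι → ℚ), 0 ≤ (δ : ℝ) → (δ : ℝ) < δ1 →
      (∀ i, (p i : ℝ) < c i ∧ c i < q i ∧ 1 < (p i : ℝ)) →
      2 * (∑ i, (1 / (p i : ℝ) - 1 / (q i : ℝ))) * (Fintype.card ι + 1) < g2 i₀ (fun i => (q i : ℝ)) δ1 →
      ∃ σ : ℝ, 0 < σ ∧ ∀ᶠ N : ℕ in atTop,
      volume {τ : ℝ | 1 ≤ τ ∧ τ ≤ N ∧ ∀ x : ι → ℕ, (∀ i, 0 < x i) → τ ^ (-(δ : ℝ)) ≤ |GG a c x - τ|} ≤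
        ENNReal.ofReal ((N : ℝ) ^ (1 - σ)) := by
    rw [ae_all_iff]; intro δ
    rw [ae_all_iff]; intro δ1
    rw [ae_all_iff]; intro p
    rw [ae_all_iff]; intro q
    by_cases hq : 0 ≤ (δ : ℝ) ∧ (δ : ℝ) < δ1 ∧ (∀ i, (p i : ℝ) ≤ q i ∧ 1 < (p i : ℝ)) ∧
        2 * (∑ i, (1 / (p i : ℝ) - 1 / (q i : ℝ))) * (Fintype.card ι + 1) <
          g2 i₀ (fun i => (q i : ℝ)) δ1
    · obtain ⟨q1, q2, q3, q4⟩ := hq
      have hnn : ∀ i, 0 ≤ 1 / (p i : ℝ) - 1 / (q i : ℝ) := fun i => by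
        have := q3 i
        rw [sub_nonneg]
        exact one_div_le_one_div_of_le (by linarith [this.2]) this.1
      filter_upwards [boxE2 hD i₀ a (fun i => p i) (fun i => q i) ha (fun i => (q3 i).2)
        (fun i => (q3 i).1) δ δ1 _ q1 q2
        (fun i => Finset.single_le_sum (f := fun i => 1 / (p i : ℝ) - 1 / (q i : ℝ))
          (fun j _ => hnn j) (mem_univ i)) (Finset.sum_nonneg fun i _ => hnn i) q4] with c hc _ _ h3 _
      exact hc fun i => ⟨(h3 i).1.le, (h3 i).2.1.le⟩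
    · refine Filter.Eventually.of_forall fun c r1 r2 r3 r4 => absurd ⟨r1, r2, ?_, r4⟩ hq
      exact fun i => ⟨((r3 i).1.trans (r3 i).2.1).le, (r3 i).2.2⟩
  filter_upwards [h1, h2] with c hc1 hc2 hc
  have hc0 : ∀ i, c i ≠ 0 := fun i => by linarith [hc i]
  constructor
  · intro δ hδ hs
    obtain ⟨δ', hδ1, hδ2⟩ := exists_rat_btwn (show δ < (∑ i, 1 / c i - 2) / 2 by linarith)
    obtain ⟨δ'', hδ3, hδ4⟩ := exists_rat_btwn hδ2
    have hpos : 0 < g1 i₀ c δ'' := by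
      unfold g1
      have h3 : ∑ i, 1 / (2 * (c i * (1 + (δ'' : ℝ)))) = (∑ i, 1 / c i) / (2 * (1 + (δ'' : ℝ))) := by
        rw [Finset.sum_div]
        refine Finset.sum_congr rfl fun i _ => ?_
        have := hc0 i
        have : (1 + (δ'' : ℝ)) ≠ 0 := by linarith
        field_simp
      have h4 : 1 < ∑ i, 1 / (2 * (c i * (1 + (δ'' : ℝ)))) := by
        rw [h3, lt_div_iff₀ (by linarith)]; linarith
      have h5 := hc i₀
      have h6 : 0 < 1 / (4 * c i₀) := by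
        have : 0 < c i₀ := by linarith
        positivity
      exact mul_pos h6 (by linarith)
    obtain ⟨p, q, hpq, hF⟩ := rat_box c hc (fun p q => g1 i₀ q δ'' -
      (∑ i, (1 / p i - 1 / q i)) * (Fintype.card ι + 1)) (by
        unfold g1
        refine ContinuousAt.sub (ContinuousAt.mul ?_ (ContinuousAt.sub ?_ continuousAt_const))
          (ContinuousAt.mul ?_ continuousAt_const)
        · refine ContinuousAt.div continuousAt_const (by fun_prop) ?_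
          have := hc0 i₀
          simpa using this
        · refine tendsto_finsetSum _ fun i _ => ?_
          refine ContinuousAt.div continuousAt_const (by fun_prop) ?_
          have := hc0 i
          have : (1 + (δ'' : ℝ)) ≠ 0 := by linarith
          positivity
        · refine tendsto_finsetSum _ fun i _ => ?_
          refine ContinuousAt.sub (ContinuousAt.div continuousAt_const (by fun_prop) ?_)
            (ContinuousAt.div continuousAt_const (by fun_prop) ?_)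
          · exact hc0 i
          · exact hc0 i) (by simpa using hpos)
    exact mono_all a c δ δ' hδ1.le (hc1 δ' δ'' p q (by linarith) hδ3 hpq (by linarith))
  · intro δ hδ hs
    obtain ⟨δ', hδ1, hδ2⟩ := exists_rat_btwn (show δ < ∑ i, 1 / c i - 1 by linarith)
    obtain ⟨δ'', hδ3, hδ4⟩ := exists_rat_btwn hδ2
    have hpos : 0 < g2 i₀ c δ'' := by
      unfold g2
      have h3 : ∑ i, 2 * (1 / (2 * (c i * (1 + (δ'' : ℝ))))) = (∑ i, 1 / c i) / (1 + (δ'' : ℝ)) := by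
        rw [Finset.sum_div]
        refine Finset.sum_congr rfl fun i _ => ?_
        have := hc0 i
        have : (1 + (δ'' : ℝ)) ≠ 0 := by linarith
        field_simp
      have h4 : 1 < ∑ i, 2 * (1 / (2 * (c i * (1 + (δ'' : ℝ))))) := by
        rw [h3, lt_div_iff₀ (by linarith)]; linarith
      have h5 := hc i₀
      have h6 : 0 < 1 / (4 * c i₀) := by
        have : 0 < c i₀ := by linarith
        positivity
      exact mul_pos h6 (by linarith)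
    obtain ⟨p, q, hpq, hF⟩ := rat_box c hc (fun p q => g2 i₀ q δ'' -
      2 * (∑ i, (1 / p i - 1 / q i)) * (Fintype.card ι + 1)) (by
        unfold g2
        refine ContinuousAt.sub (ContinuousAt.mul ?_ (ContinuousAt.sub ?_ continuousAt_const))
          (ContinuousAt.mul (ContinuousAt.mul continuousAt_const ?_) continuousAt_const)
        · refine ContinuousAt.div continuousAt_const (by fun_prop) ?_
          have := hc0 i₀
          simpa using this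
        · refine tendsto_finsetSum _ fun i _ => ?_
          refine ContinuousAt.mul continuousAt_const (ContinuousAt.div continuousAt_const (by fun_prop) ?_)
          have := hc0 i
          have : (1 + (δ'' : ℝ)) ≠ 0 := by linarith
          positivity
        · refine tendsto_finsetSum _ fun i _ => ?_
          refine ContinuousAt.sub (ContinuousAt.div continuousAt_const (by fun_prop) ?_)
            (ContinuousAt.div continuousAt_const (by fun_prop) ?_)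
          · exact hc0 i
          · exact hc0 i) (by simpa using hpos)
    exact mono_almost a c δ δ' hδ1.le (hc2 δ' δ'' p q (by linarith) hδ3 hpq (by linarith))

end Pool.Agent.L7h70.GC
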