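import Pool.Agent.L7h70.GC.Asm

/-! From second moments to almost sure bounds. -/

set_option autoImplicit false

namespace Pool.Agent.L7h70.GC

open Finset MeasureTheory Filter

/-- a bound with a small power -/
lemma small_power (K M ρ ε : ℝ) (hK : 0 ≤ K) (hM : 0 ≤ M) (hρ : 0 ≤ ρ) (hε : ρ < ε) :
    ∀ᶠ H : ℝ in atTop, (K * (1 + Real.log H) + M) * H ^ ρ ≤ H ^ ε := by
  filter_upwards [log_small (K + M) (ε - ρ) (by linarith), eventually_ge_atTop 1] with H h1 h2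
  have hH0 : 0 < H := by linarith
  have h0 : 0 ≤ Real.log H := Real.log_nonneg h2
  have h3 : K * (1 + Real.log H) + M ≤ H ^ (ε - ρ) := by nlinarith
  calc (K * (1 + Real.log H) + M) * H ^ ρ ≤ H ^ (ε - ρ) * H ^ ρ := by gcongr
    _ = H ^ ε := by rw [← Real.rpow_add hH0]; congr 1; ring

lemma sq_rpow {x : ℝ} (hx : 0 < x) (a : ℝ) : (x ^ a) ^ 2 = x ^ (2 * a) := by
  rw [← Real.rpow_natCast, ← Real.rpow_mul hx.le]; congr 1; push_cast; ring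

/-- first moments -/
theorem gen1 (hP : S_PRB) (ι : Type) [Fintype ι] (μ : ι → Measure ℝ) [∀ i, IsFiniteMeasure (μ i)]
    (g : ℕ → ι → ℝ → ℝ → ℝ) (hg0 : ∀ l i ω ξ, 0 ≤ g l i ω ξ)
    (hgm : ∀ l i, Measurable fun p : ℝ × ℝ => g l i p.1 p.2) (e : ι → ℝ) (κ δ η ε ρ : ℝ) (K : ι → ℝ)
    (hκ : 0 < κ) (hρ : 0 ≤ ρ) (hε : ρ < ε) (hK : ∀ i, 0 ≤ K i) (hη : 0 ≤ η)
    (hs : Fintype.card ι * ε + η < κ * (∑ i, e i - 1))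
    (hm : ∀ᶠ l : ℕ in atTop, ∀ i, ∀ ξ : ℝ, ((2 : ℝ) ^ l) ^ (-1 + κ) ≤ ξ → ξ ≤ ((2 : ℝ) ^ l) ^ δ →
      ∫⁻ ω, ENNReal.ofReal (g l i ω ξ ^ 2) ∂(μ i) ≤
        ENNReal.ofReal (K i * (1 + Real.log ((2 : ℝ) ^ l)) * (((2 : ℝ) ^ l) ^ ρ * (ξ * 2 ^ l) ^ (-(e i))) ^ 2)) :
    ∀ᵐ ω ∂(Measure.pi μ), ∀ᶠ l : ℕ in atTop,
      ∫⁻ ξ in Set.Ioc (((2 : ℝ) ^ l) ^ (-1 + κ)) (((2 : ℝ) ^ l) ^ δ), ∏ i, ENNReal.ofReal (g l i (ω i) ξ) ≤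
        ENNReal.ofReal (((2 : ℝ) ^ l) ^ (-1 - η)) := by
  refine hP ι μ (fun l i ω ξ => ENNReal.ofReal (g l i ω ξ)) (fun l i => (hgm l i).ennreal_ofReal) e κ δ η ε
    hκ (lt_of_le_of_lt hρ hε) hs ?_ hη
  have h1 : ∀ᶠ l : ℕ in atTop, ∀ i, (K i * (1 + Real.log ((2 : ℝ) ^ l)) + (μ i Set.univ).toReal) *
      ((2 : ℝ) ^ l) ^ ρ ≤ ((2 : ℝ) ^ l) ^ ε := by
    rw [Filter.eventually_all]
    intro i
    exact tend2.eventually (small_power (K i) _ ρ ε (hK i) ENNReal.toReal_nonneg hρ hε)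
  filter_upwards [h1, hm] with l hl hml i ξ hξ1 hξ2
  have hH1 : (1 : ℝ) ≤ (2 : ℝ) ^ l := one_le_pow₀ (by norm_num)
  have hlog : 0 ≤ Real.log ((2 : ℝ) ^ l) := Real.log_nonneg hH1
  have hξ0 : 0 < ξ := lt_of_lt_of_le (by positivity) hξ1
  refine (first_of_second (μ i) (fun ω => g l i ω ξ) (fun ω => hg0 l i ω ξ)
    (((2 : ℝ) ^ l) ^ ρ * (ξ * 2 ^ l) ^ (-(e i))) (K i * (1 + Real.log ((2 : ℝ) ^ l))) (μ i Set.univ).toReal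
    (by positivity) (by have := hK i; positivity)
    (by rw [ENNReal.ofReal_toReal (measure_ne_top _ _)]) ENNReal.toReal_nonneg
    (hml i ξ hξ1 hξ2)).trans ?_
  apply ENNReal.ofReal_le_ofReal
  rw [← mul_assoc]
  have := hl i
  gcongr

/-- second moments -/
theorem gen2 (hP : S_PRB) (ι : Type) [Fintype ι] (μ : ι → Measure ℝ) [∀ i, IsFiniteMeasure (μ i)]
    (g : ℕ → ι → ℝ → ℝ → ℝ)
    (hgm : ∀ l i, Measurable fun p : ℝ × ℝ => g l i p.1 p.2) (e : ι → ℝ) (κ δ η ε ρ : ℝ) (K : ι → ℝ)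
    (hκ : 0 < κ) (hρ : 0 ≤ ρ) (hε : 2 * ρ < ε) (hK : ∀ i, 0 ≤ K i) (hη : 0 ≤ η)
    (hs : Fintype.card ι * ε + η < κ * (∑ i, 2 * e i - 1))
    (hm : ∀ᶠ l : ℕ in atTop, ∀ i, ∀ ξ : ℝ, ((2 : ℝ) ^ l) ^ (-1 + κ) ≤ ξ → ξ ≤ ((2 : ℝ) ^ l) ^ δ →
      ∫⁻ ω, ENNReal.ofReal (g l i ω ξ ^ 2) ∂(μ i) ≤
        ENNReal.ofReal (K i * (1 + Real.log ((2 : ℝ) ^ l)) * (((2 : ℝ) ^ l) ^ ρ * (ξ * 2 ^ l) ^ (-(e i))) ^ 2)) :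
    ∀ᵐ ω ∂(Measure.pi μ), ∀ᶠ l : ℕ in atTop,
      ∫⁻ ξ in Set.Ioc (((2 : ℝ) ^ l) ^ (-1 + κ)) (((2 : ℝ) ^ l) ^ δ), ∏ i, ENNReal.ofReal (g l i (ω i) ξ ^ 2) ≤
        ENNReal.ofReal (((2 : ℝ) ^ l) ^ (-1 - η)) := by
  refine hP ι μ (fun l i ω ξ => ENNReal.ofReal (g l i ω ξ ^ 2))
    (fun l i => ((hgm l i).pow_const 2).ennreal_ofReal) (fun i => 2 * e i) κ δ η ε
    hκ (by linarith) hs ?_ hη
  have h1 : ∀ᶠ l : ℕ in atTop, ∀ i, (K i * (1 + Real.log ((2 : ℝ) ^ l)) + 0) *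
      ((2 : ℝ) ^ l) ^ (2 * ρ) ≤ ((2 : ℝ) ^ l) ^ ε := by
    rw [Filter.eventually_all]
    intro i
    exact tend2.eventually (small_power (K i) 0 (2 * ρ) ε (hK i) le_rfl (by linarith) hε)
  filter_upwards [h1, hm] with l hl hml i ξ hξ1 hξ2
  have hH1 : (1 : ℝ) ≤ (2 : ℝ) ^ l := one_le_pow₀ (by norm_num)
  have hH0 : (0 : ℝ) < (2 : ℝ) ^ l := by linarith
  have hξ0 : 0 < ξ := lt_of_lt_of_le (by positivity) hξ1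
  refine (hml i ξ hξ1 hξ2).trans ?_
  apply ENNReal.ofReal_le_ofReal
  have h2 := hl i
  rw [add_zero] at h2
  have e1 : (((2 : ℝ) ^ l) ^ ρ * (ξ * 2 ^ l) ^ (-(e i))) ^ 2 =
      ((2 : ℝ) ^ l) ^ (2 * ρ) * (ξ * 2 ^ l) ^ (-(2 * e i)) := by
    rw [mul_pow, sq_rpow hH0, sq_rpow (by positivity)]
    congr 2
    ring
  rw [e1, ← mul_assoc]
  gcongr

end Pool.Agent.L7h70.GC
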