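import Mathlib
import Pool.Agent.L7h43.MW.Stm

/-!
# Project GC: metric Waring problem with generic coefficients or exponents, sharp thresholds

`ee x = exp (2 π i x)` is `Pool.Agent.L7h43.MW.ee` (facts in `Pool/Agent/L7h43/MW/Kern.lean`:
`norm_ee`, `ee_add`, `ee_neg`, `ee_sum`, `continuous_ee`, `Kr`, `Kr_le_gauss`, `Kr_le_sq`, `cmp`).
`H = 2 ^ l` is the scale. Theorems to be proved from these parts: if `c_i ≥ 1`,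
`∑ 1 / c_i > 2 + 2 δ`, then for almost all coefficients `α` every large real `τ` is within `τ^(-δ)` of
`∑ α_i x_i ^ c_i`; the same for almost all exponents `c` (all `α_i = 1`); and for almost all targets if
`∑ 1 / c_i > 1 + δ`.
-/

set_option autoImplicit false

namespace Pool.Agent.L7h70.GC

open Finset MeasureTheory Filter
open Pool.Agent.L7h43.MW (ee)

/-- the range of a variable: `n < x ≤ 4 n` -/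
noncomputable def XX (n : ℝ) : Finset ℕ := Ioc ⌊n⌋₊ ⌊4 * n⌋₊

/-- the exponential sum -/
noncomputable def SS (n a c ξ : ℝ) : ℂ := ∑ x ∈ XX n, ee (ξ * (a * (x : ℝ) ^ c))

/-- the lower ends of the ranges at the level `l` -/
noncomputable def nn {ι : Type} (A c : ι → ℝ) (l : ℕ) (i : ι) : ℝ := A i * ((2 : ℝ) ^ l) ^ (1 / c i)

/-- the box -/
noncomputable def BX {ι : Type} [Fintype ι] [DecidableEq ι] (A c : ι → ℝ) (l : ℕ) : Finset (ι → ℕ) :=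
  Fintype.piFinset fun i => XX (nn A c l i)

/-- the form -/
noncomputable def GG {ι : Type} [Fintype ι] (a c : ι → ℝ) (x : ι → ℕ) : ℝ :=
  ∑ i, a i * (x i : ℝ) ^ c i

/-- MSA (mean square over the coefficient). Expand the square:
`∫ |∑_x e(ξ a x^c)|^2 da = ∑_{x,y} ∫ e(ξ a (x^c - y^c)) da`, the diagonal is `≤ #XX m ≤ 4 n m` and an
off-diagonal term is at most `1 / (π ξ |x^c - y^c|) ≤ 1 / (ξ |x - y| n^(c-1))`, `n = A H^(1/c)`; sum over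
`y`: `≤ 2 (1 + log (4 n)) / (ξ n^(c-1))`. Total `≤ C (1 + log H) n^2 (1/n + 1/(ξ H))`, and
`1/n ≤ H^(-1/c) ≤ (ξ H)^(-1/(c(1+δ)))`, `1/(ξ H) ≤ (ξ H)^(-1/(c(1+δ)))`. -/
def S_MSA : Prop := ∀ c A m δ : ℝ, 1 ≤ c → 1 ≤ A → 1 ≤ m → 0 ≤ δ → ∃ C : ℝ, 0 < C ∧
  ∀ H : ℝ, 1 ≤ H → ∀ ξ : ℝ, 1 / H ≤ ξ → ξ ≤ H ^ δ →
    ∫⁻ a in Set.Icc (1 / m) m, ENNReal.ofReal (‖SS (A * H ^ (1 / c)) a c ξ‖ ^ 2) ≤
      ENNReal.ofReal (C * (1 + Real.log H) * (A * H ^ (1 / c)) ^ 2 * (ξ * H) ^ (-(1 / (c * (1 + δ)))))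

/-- MSE (mean square over the exponent). The range depends on `c`, but for given `x, y` the set of `c`
with `x, y ∈ XX (A H^(1/c))` is an interval `J`, and `|∫_J e(ξ a (x^c - y^c)) dc| ≤ 1/(ξ a |x-y| n^(c-1))`
with `n^(c-1) ≥ H^(1-1/c) ≥ H^(1-1/p)` (first derivative test: the derivative
`ξ a (x^c log x - y^c log y)` of the phase is positive and monotone for `x > y ≥ 1`; use
`A H^(1/c) ≥ 3` so that `log ≥ 1`). So `∫ |SS|^2 dc ≤ C (1 + log H) (H^(1/p) + H^(2/p)/(ξ H))`, and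
`(A H^(1/c))^2 ≥ H^(2/q)`. -/
def S_MSE : Prop := ∀ p q a A δ : ℝ, 1 < p → p ≤ q → 0 < a → 3 ≤ A → 0 ≤ δ → ∃ C : ℝ, 0 < C ∧
  ∀ H : ℝ, 1 ≤ H → ∀ ξ : ℝ, 1 / H ≤ ξ → ξ ≤ H ^ δ →
    ∫⁻ c in Set.Icc p q, ENNReal.ofReal (‖SS (A * H ^ (1 / c)) a c ξ‖ ^ 2 / (A * H ^ (1 / c)) ^ 2) ≤
      ENNReal.ofReal (C * (1 + Real.log H) * H ^ (2 * (1 / p - 1 / q)) *
        (ξ * H) ^ (-(1 / (q * (1 + δ)))))

/-- PRB (independence and Borel-Cantelli). By Tonelli the integral over `ω` of the left side is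
`∫ ∏_i ∫ G l i ω ξ dμ_i dξ ≤ (2^l)^(ε #ι) ∫_{ξ > B} (ξ 2^l)^(-∑ e_i) dξ =
C (2^l)^(ε #ι - 1 - κ (∑ e_i - 1))`, `B = (2^l)^(-1+κ)`; then Markov and Borel-Cantelli
(`measure_limsup_atTop_eq_zero` or `ae_eventually_notMem`). -/
def S_PRB : Prop := ∀ (ι : Type) [Fintype ι] (μ : ι → Measure ℝ) [∀ i, IsFiniteMeasure (μ i)]
  (G : ℕ → ι → ℝ → ℝ → ENNReal), (∀ l i, Measurable fun p : ℝ × ℝ => G l i p.1 p.2) →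
  ∀ (e : ι → ℝ) (κ δ η ε : ℝ), 0 < κ → 0 < ε → Fintype.card ι * ε + η < κ * (∑ i, e i - 1) →
  (∀ᶠ l : ℕ in atTop, ∀ i, ∀ ξ : ℝ, ((2 : ℝ) ^ l) ^ (-1 + κ) ≤ ξ → ξ ≤ ((2 : ℝ) ^ l) ^ δ →
    ∫⁻ ω, G l i ω ξ ∂(μ i) ≤ ENNReal.ofReal (((2 : ℝ) ^ l) ^ ε * (ξ * 2 ^ l) ^ (-(e i)))) →
  0 ≤ η → ∀ᵐ ω ∂(Measure.pi μ), ∀ᶠ l : ℕ in atTop,
    ∫⁻ ξ in Set.Ioc (((2 : ℝ) ^ l) ^ (-1 + κ)) (((2 : ℝ) ^ l) ^ δ), ∏ i, G l i (ω i) ξ ≤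
      ENNReal.ofReal (((2 : ℝ) ^ l) ^ (-1 - η))

/-- The size condition: the variable `i₀` is dominant. -/
def Dom {ι : Type} [Fintype ι] [DecidableEq ι] (i₀ : ι) (a A c : ι → ℝ) : Prop :=
  (∀ i, 0 < a i) ∧ (∀ i, 1 ≤ A i) ∧ (∀ i, 1 ≤ c i) ∧
    ∑ i ∈ univ.erase i₀, a i * (4 * A i) ^ c i ≤
      a i₀ * A i₀ ^ c i₀ * ((3 / 2 : ℝ) ^ c i₀ - (5 / 4 : ℝ) ^ c i₀)

/-- SWAP: double counting, `(x, z) ↦ (update x i₀ z, x i₀)` is an involution. -/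
def S_SWAP : Prop := ∀ (ι : Type) [Fintype ι] [DecidableEq ι] (i₀ : ι) (X : ι → Finset ℕ)
  (F : (ι → ℕ) → ℝ), ∑ x ∈ Fintype.piFinset X, ∑ z ∈ X i₀, F (Function.update x i₀ z) =
    ((X i₀).card : ℝ) * ∑ x ∈ Fintype.piFinset X, F x

/-- COARSE: lower bound of the smooth count at the wide scale `W = 1 / R0`. For fixed `x_i`, `i ≠ i₀`, the
number `τ' = τ - ∑_{i ≠ i₀} a_i x_i^(c_i)` is `a₀ v^(c₀)` with `5/4 n₀ ≤ v ≤ 3 n₀`, and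
`|a₀ z^(c₀) - τ'| ≤ W` for the integers `z ∈ (v, v + h]`, `h = c W n₀ / H`. With SWAP. -/
def S_COARSE : Prop := ∀ (ι : Type) [Fintype ι] [DecidableEq ι] (i₀ : ι) (a A c : ι → ℝ),
  Dom i₀ a A c → ∀ κ : ℝ, 0 < κ → κ < 1 / c i₀ → ∃ b : ℝ, 0 < b ∧ ∀ᶠ l : ℕ in atTop, ∀ τ : ℝ,
    a i₀ * A i₀ ^ c i₀ * (3 / 2 : ℝ) ^ c i₀ * 2 ^ l ≤ τ → τ ≤ a i₀ * A i₀ ^ c i₀ * (3 : ℝ) ^ c i₀ * 2 ^ l →
    b * (∏ i, nn A c l i) / 2 ^ l ≤ ∑ x ∈ BX A c l, ((2 : ℝ) ^ l) ^ (-1 + κ) *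
      Real.exp (-(Real.pi * (((2 : ℝ) ^ l) ^ (-1 + κ)) ^ 2 * (GG a c x - τ) ^ 2))

/-- DET: from COARSE and `Pool.Agent.L7h43.MW.cmp` (narrow scale `R = (2^l)^δ'`, `δ < δ' < δ1`). -/
def S_DET : Prop := ∀ (ι : Type) [Fintype ι] [DecidableEq ι] (i₀ : ι) (a A c : ι → ℝ),
  Dom i₀ a A c → ∀ δ δ1 κ η : ℝ, 0 ≤ δ → δ < δ1 → 0 < κ → κ < 1 / (2 * c i₀) → 0 < η →
  (∀ᶠ l : ℕ in atTop, ∫⁻ ξ in Set.Ioc (((2 : ℝ) ^ l) ^ (-1 + κ)) (((2 : ℝ) ^ l) ^ δ1),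
    ∏ i, ENNReal.ofReal (‖SS (nn A c l i) (a i) (c i) ξ‖ / nn A c l i) ≤
      ENNReal.ofReal (((2 : ℝ) ^ l) ^ (-1 - η))) →
  ∀ᶠ τ : ℝ in atTop, ∃ x : ι → ℕ, (∀ i, 0 < x i) ∧ |GG a c x - τ| < τ ^ (-δ)

/-- DET2 (almost all targets): `Z` is a separated set of exceptional targets in the range of the level `l`.
From COARSE, the duality `∑_{t ∈ Z} (narrow - wide) ≤ 2 ∫ Kr |∏ SS| |∑_{t ∈ Z} e(-ξ t)|`, Cauchy-Schwarz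
and `Pool.Agent.L7h43.MW.gauss_sq`. -/
def S_DET2 : Prop := ∀ (ι : Type) [Fintype ι] [DecidableEq ι] (i₀ : ι) (a A c : ι → ℝ),
  Dom i₀ a A c → ∀ δ δ1 κ η : ℝ, 0 ≤ δ → δ < δ1 → 0 < κ → κ < 1 / (2 * c i₀) → 0 < η →
  (∀ᶠ l : ℕ in atTop, ∫⁻ ξ in Set.Ioc (((2 : ℝ) ^ l) ^ (-1 + κ)) (((2 : ℝ) ^ l) ^ δ1),
    ∏ i, ENNReal.ofReal (‖SS (nn A c l i) (a i) (c i) ξ‖ ^ 2 / (nn A c l i) ^ 2) ≤
      ENNReal.ofReal (((2 : ℝ) ^ l) ^ (-1 - η))) →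
  ∃ σ : ℝ, 0 < σ ∧ ∀ᶠ N : ℕ in atTop,
    volume {τ : ℝ | 1 ≤ τ ∧ τ ≤ N ∧ ∀ x : ι → ℕ, (∀ i, 0 < x i) → τ ^ (-δ) ≤ |GG a c x - τ|} ≤
      ENNReal.ofReal ((N : ℝ) ^ (1 - σ))

end Pool.Agent.L7h70.GC
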